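import Pool.Agent.Y957.VK.Stm3

set_option autoImplicit false

/-! The mean square over the real dilations `α` of the weighted sums over `n` of the deviations of the averages of the
von Mangoldt function over the intervals `(α n, (1 + h) α n]`. -/

namespace Pool.Agent.NH15.DL

open Finset MeasureTheory Filter Topology
open scoped ENNReal
open Pool.Agent.Y957.VK
open Pool.Agent.H376R2.MR (er)

/-- indicator function -/
noncomputable def ind (h v : ℝ) : ℝ := if 0 < v ∧ v ≤ Real.log (1 + h) then 1 else 0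

lemma ind_nonneg (h v : ℝ) : 0 ≤ ind h v := by unfold ind; split_ifs <;> norm_num

lemma ind_le (h v : ℝ) : ind h v ≤ 1 := by unfold ind; split_ifs <;> norm_num

lemma ind_meas (h : ℝ) : Measurable (ind h) := by
  unfold ind
  apply Measurable.ite
  · exact (measurableSet_lt measurable_const measurable_id).inter (measurableSet_le measurable_id measurable_const)
  · exact measurable_const
  · exact measurable_const

/-- the sum of `Λ - 1` over the integers in `(x, (1 + h) x]` up to `M` -/
noncomputable def LS (M : ℕ) (h x : ℝ) : ℝ :=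
  ∑ m ∈ Icc 1 M, (ArithmeticFunction.vonMangoldt m - 1) * (if x < m ∧ (m : ℝ) ≤ (1 + h) * x then 1 else 0)

lemma ind_eq (h α l : ℝ) (hh : 0 < h) (hα : 0 < α) (hl : 0 < l) (m : ℕ) (hm : 1 ≤ m) :
    ind h (Real.log m - Real.log α - Real.log l) =
      if α * l < m ∧ (m : ℝ) ≤ (1 + h) * (α * l) then 1 else 0 := by
  have hm0 : (0 : ℝ) < m := by exact_mod_cast hm
  have h1 : (0 < Real.log m - Real.log α - Real.log l) ↔ α * l < m := by
    rw [← Real.log_lt_log_iff (by positivity) hm0, Real.log_mul hα.ne' hl.ne']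
    constructor <;> intro h <;> linarith
  have h2 : (Real.log m - Real.log α - Real.log l ≤ Real.log (1 + h)) ↔ (m : ℝ) ≤ (1 + h) * (α * l) := by
    rw [← Real.log_le_log_iff hm0 (by positivity), Real.log_mul (by positivity) (by positivity),
      Real.log_mul hα.ne' hl.ne']
    constructor <;> intro h <;> linarith
  unfold ind
  simp only [h1, h2]

/-- there are at most `B` of the points in a unit interval -/
def Thin (B : ℝ) (I : Finset ℕ) (lam : ℕ → ℝ) : Prop :=
  ∀ t : ℝ, ((I.filter (fun n => t ≤ lam n ∧ lam n < t + 1)).card : ℝ) ≤ B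

lemma thin_count {B : ℝ} {I : Finset ℕ} {lam : ℕ → ℝ} (hB : Thin B I lam) (t s : ℝ) (hs : 0 ≤ s) :
    ((I.filter (fun n => t ≤ lam n ∧ lam n ≤ t + s)).card : ℝ) ≤ B * (s + 1) := by
  classical
  have hB0 : 0 ≤ B := (Nat.cast_nonneg _).trans (hB 0)
  have hsub : I.filter (fun n => t ≤ lam n ∧ lam n ≤ t + s) ⊆
      (range (⌊s⌋₊ + 1)).biUnion fun i => I.filter (fun n => t + i ≤ lam n ∧ lam n < t + i + 1) := by
    intro n hn
    rw [mem_filter] at hn
    obtain ⟨h1, h2, h3⟩ := hn
    rw [mem_biUnion]
    refine ⟨⌊lam n - t⌋₊, ?_, ?_⟩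
    · rw [mem_range]
      have : ⌊lam n - t⌋₊ ≤ ⌊s⌋₊ := Nat.floor_le_floor (by linarith)
      omega
    · rw [mem_filter]
      have h4 := Nat.floor_le (show 0 ≤ lam n - t by linarith)
      have h5 := Nat.lt_floor_add_one (lam n - t)
      exact ⟨h1, by linarith, by linarith⟩
  have h1 : ((I.filter (fun n => t ≤ lam n ∧ lam n ≤ t + s)).card : ℝ) ≤
      ∑ i ∈ range (⌊s⌋₊ + 1), ((I.filter (fun n => t + i ≤ lam n ∧ lam n < t + i + 1)).card : ℝ) := by
    exact_mod_cast (card_le_card hsub).trans card_biUnion_le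
  have h2 : ∑ i ∈ range (⌊s⌋₊ + 1), ((I.filter (fun n => t + i ≤ lam n ∧ lam n < t + i + 1)).card : ℝ) ≤
      ∑ _i ∈ range (⌊s⌋₊ + 1), B := by
    apply sum_le_sum
    intro i _
    exact hB (t + (i : ℝ))
  refine h1.trans (h2.trans ?_)
  rw [sum_const, card_range, nsmul_eq_mul, mul_comm]
  apply mul_le_mul_of_nonneg_left _ hB0
  push_cast
  linarith [Nat.floor_le hs]

/-- the setting: the points `lam n`, `n ∈ I`, are in `[N, 2 N)`, at most `B` of them in a unit interval -/
structure Pts (B : ℝ) (N : ℕ) (I : Finset ℕ) (lam : ℕ → ℝ) : Prop where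
  hN : 1 ≤ N
  hB : 1 ≤ B
  thin : Thin B I lam
  lo : ∀ n ∈ I, (N : ℝ) ≤ lam n
  hi : ∀ n ∈ I, lam n < 2 * N

lemma Pts.card_le {B : ℝ} {N : ℕ} {I : Finset ℕ} {lam : ℕ → ℝ} (H : Pts B N I lam) : (I.card : ℝ) ≤ 2 * B * N := by
  have hN1 : (1 : ℝ) ≤ N := by exact_mod_cast H.hN
  have h1 := thin_count H.thin (N : ℝ) (N : ℝ) (by linarith)
  have h2 : I.filter (fun n => (N : ℝ) ≤ lam n ∧ lam n ≤ N + N) = I := by
    rw [filter_eq_self]
    intro n hn
    exact ⟨H.lo n hn, by linarith [H.hi n hn]⟩
  rw [h2] at h1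
  refine h1.trans ?_
  have hB := H.hB
  nlinarith

/-- the function of the logarithm -/
noncomputable def bb (B : ℝ) (N : ℕ) (I : Finset ℕ) (lam : ℕ → ℝ) (h : ℝ) (w : ℕ → ℝ) (v : ℝ) : ℝ :=
  (∑ n ∈ I, w n * (N / lam n) * ind h (v - Real.log (lam n))) / (5 * B * h * N)

lemma bb_meas (B : ℝ) (N : ℕ) (I : Finset ℕ) (lam : ℕ → ℝ) (h : ℝ) (w : ℕ → ℝ) : Measurable (bb B N I lam h w) := by
  unfold bb
  apply Measurable.div_const
  apply Finset.measurable_sum
  intro n _
  exact ((ind_meas h).comp (measurable_id.sub_const _)).const_mul _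

lemma count_le {B : ℝ} {N : ℕ} {I : Finset ℕ} {lam : ℕ → ℝ} (H : Pts B N I lam) (h : ℝ) (hh : 0 < h) (hh1 : h ≤ 1)
    (hhN : 1 ≤ h * N) (v : ℝ) :
    ∑ n ∈ I, ind h (v - Real.log (lam n)) ≤ 5 * B * h * N := by
  classical
  have hN0 : (0 : ℝ) < N := by exact_mod_cast H.hN
  have hB1 := H.hB
  have hlam0 : ∀ n ∈ I, 0 < lam n := fun n hn => hN0.trans_le (H.lo n hn)
  have e : ∑ n ∈ I, ind h (v - Real.log (lam n)) =
      ((I.filter (fun n : ℕ => 0 < v - Real.log (lam n) ∧ v - Real.log (lam n) ≤ Real.log (1 + h))).card : ℝ) := by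
    unfold ind
    rw [← sum_filter, sum_const, nsmul_eq_mul, mul_one]
  rw [e]
  by_cases hv : v ≤ Real.log (4 * N)
  · -- the elements lie in an interval
    have h2 : Real.exp v ≤ 4 * N := by
      have := Real.exp_le_exp.2 hv
      rwa [Real.exp_log (by positivity)] at this
    have hsub : I.filter (fun n : ℕ => 0 < v - Real.log (lam n) ∧ v - Real.log (lam n) ≤ Real.log (1 + h)) ⊆
        I.filter (fun n => Real.exp v / (1 + h) ≤ lam n ∧ lam n ≤ Real.exp v / (1 + h) + 4 * h * N) := by
      intro n hn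
      rw [mem_filter] at hn
      obtain ⟨h1, h3, h4⟩ := hn
      have hn0 := hlam0 n h1
      rw [mem_filter]
      refine ⟨h1, ?_, ?_⟩
      · rw [div_le_iff₀ (by linarith)]
        have : v ≤ Real.log (lam n * (1 + h)) := by
          rw [Real.log_mul hn0.ne' (by linarith)]
          linarith
        exact (Real.le_log_iff_exp_le (by positivity)).1 this
      · have h5 : lam n ≤ Real.exp v := by
          rw [← Real.log_le_iff_le_exp hn0]
          linarith
        have h8 : Real.exp v - Real.exp v / (1 + h) ≤ h * Real.exp v := by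
          have : Real.exp v - Real.exp v / (1 + h) = h * Real.exp v / (1 + h) := by
            field_simp
            ring
          rw [this]
          exact div_le_self (by positivity) (by linarith)
        have h9 : h * Real.exp v ≤ h * (4 * N) := mul_le_mul_of_nonneg_left h2 hh.le
        linarith
    have h1 : ((I.filter (fun n : ℕ => 0 < v - Real.log (lam n) ∧
        v - Real.log (lam n) ≤ Real.log (1 + h))).card : ℝ) ≤ B * (4 * h * N + 1) := by
      refine le_trans ?_ (thin_count H.thin (Real.exp v / (1 + h)) (4 * h * N) (by positivity))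
      exact_mod_cast card_le_card hsub
    refine h1.trans ?_
    have : B * 1 ≤ B * (h * N) := mul_le_mul_of_nonneg_left hhN (by linarith)
    linarith
  · rw [not_le] at hv
    have : I.filter (fun n : ℕ => 0 < v - Real.log (lam n) ∧ v - Real.log (lam n) ≤ Real.log (1 + h)) = ∅ := by
      rw [filter_eq_empty_iff]
      intro n hn h3
      have hn0 := hlam0 n hn
      have h4 : Real.log (lam n) ≤ Real.log (2 * N) := Real.log_le_log hn0 (H.hi n hn).le
      have h5 : Real.log (1 + h) ≤ Real.log 2 := Real.log_le_log (by linarith) (by linarith)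
      have h6 : Real.log (4 * (N : ℝ)) = Real.log 2 + Real.log (2 * N) := by
        rw [← Real.log_mul (by norm_num) (by positivity)]
        congr 1
        ring
      linarith [h3.2]
    rw [this, card_empty, Nat.cast_zero]
    positivity

lemma bb_le {B : ℝ} {N : ℕ} {I : Finset ℕ} {lam : ℕ → ℝ} (H : Pts B N I lam) (h : ℝ) (hh : 0 < h) (hh1 : h ≤ 1)
    (hhN : 1 ≤ h * N) (w : ℕ → ℝ) (hw : ∀ n, |w n| ≤ 1) (v : ℝ) : |bb B N I lam h w v| ≤ 1 := by
  have hN0 : (0 : ℝ) < N := by exact_mod_cast H.hN
  have hB1 := H.hB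
  unfold bb
  rw [abs_div, abs_of_pos (show 0 < 5 * B * h * N by positivity), div_le_one (by positivity)]
  refine le_trans ?_ (count_le H h hh hh1 hhN v)
  refine (abs_sum_le_sum_abs _ _).trans (sum_le_sum fun n hn => ?_)
  have hn0 : 0 < lam n := hN0.trans_le (H.lo n hn)
  rw [abs_mul, abs_mul, abs_of_nonneg (ind_nonneg _ _), abs_of_nonneg (show (0 : ℝ) ≤ N / lam n by positivity)]
  have h1 : (N : ℝ) / lam n ≤ 1 := by
    rw [div_le_one hn0]
    exact H.lo n hn
  calc |w n| * (N / lam n) * ind h (v - Real.log (lam n)) ≤ 1 * ind h (v - Real.log (lam n)) := by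
        apply mul_le_mul_of_nonneg_right _ (ind_nonneg _ _)
        calc |w n| * (N / lam n) ≤ 1 * 1 := mul_le_mul (hw n) h1 (by positivity) (by norm_num)
          _ = 1 := one_mul 1
    _ = _ := one_mul _

lemma bb_supp {B : ℝ} {N : ℕ} {I : Finset ℕ} {lam : ℕ → ℝ} (H : Pts B N I lam) (h : ℝ) (hh : 0 < h) (hh1 : h ≤ 1)
    (w : ℕ → ℝ) (v : ℝ) (hv : v - Real.log N ∉ Set.Icc 0 (Real.log 4)) : bb B N I lam h w v = 0 := by
  have hN0 : (0 : ℝ) < N := by exact_mod_cast H.hN
  unfold bb
  rw [sum_eq_zero, zero_div]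
  intro n hn
  have hn0 : 0 < lam n := hN0.trans_le (H.lo n hn)
  have : ind h (v - Real.log (lam n)) = 0 := by
    unfold ind
    rw [if_neg]
    rintro ⟨h1, h2⟩
    apply hv
    have h3 : Real.log N ≤ Real.log (lam n) := Real.log_le_log hN0 (H.lo n hn)
    have h4 : Real.log (lam n) ≤ Real.log (2 * N) := Real.log_le_log hn0 (H.hi n hn).le
    have h5 : Real.log (1 + h) ≤ Real.log 2 := Real.log_le_log (by linarith) (by linarith)
    have h6 : Real.log 4 = Real.log 2 + Real.log 2 := by
      rw [← Real.log_mul (by norm_num) (by norm_num)]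
      norm_num
    rw [Real.log_mul (by norm_num) hN0.ne'] at h4
    constructor <;> linarith
  rw [this, mul_zero]

lemma ind_var (h s : ℝ) (hh : 0 < h) (hs : 0 ≤ s) (c : ℝ) :
    Integrable (fun y => |ind h (y + s - c) - ind h (y - c)|) ∧
    ∫ y, |ind h (y + s - c) - ind h (y - c)| ≤ 2 * s := by
  have hl : 0 < Real.log (1 + h) := Real.log_pos (by linarith)
  obtain ⟨g, hg⟩ : ∃ g : ℝ → ℝ, g = fun y => (Set.Icc (c - s) c).indicator (fun _ => (1 : ℝ)) y +
      (Set.Icc (c + Real.log (1 + h) - s) (c + Real.log (1 + h))).indicator (fun _ => (1 : ℝ)) y := ⟨_, rfl⟩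
  have hle : ∀ y, |ind h (y + s - c) - ind h (y - c)| ≤ g y := by
    intro y
    rw [hg]
    simp only
    by_cases h1 : 0 < y + s - c ∧ y + s - c ≤ Real.log (1 + h)
    · by_cases h2 : 0 < y - c ∧ y - c ≤ Real.log (1 + h)
      · unfold ind
        rw [if_pos h1, if_pos h2, sub_self, abs_zero]
        apply add_nonneg <;> exact Set.indicator_nonneg (fun _ _ => zero_le_one) _
      · have h3 : y ∈ Set.Icc (c - s) c := by
          rw [not_and_or, not_lt, not_le] at h2
          rcases h2 with h2 | h2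
          · exact ⟨by linarith, by linarith⟩
          · exfalso
            linarith [h1.2]
        unfold ind
        rw [if_pos h1, if_neg h2, Set.indicator_of_mem h3]
        have : 0 ≤ (Set.Icc (c + Real.log (1 + h) - s) (c + Real.log (1 + h))).indicator (fun _ => (1 : ℝ)) y :=
          Set.indicator_nonneg (fun _ _ => zero_le_one) _
        norm_num
        linarith
    · by_cases h2 : 0 < y - c ∧ y - c ≤ Real.log (1 + h)
      · have h3 : y ∈ Set.Icc (c + Real.log (1 + h) - s) (c + Real.log (1 + h)) := by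
          rw [not_and_or, not_lt, not_le] at h1
          rcases h1 with h1 | h1
          · exfalso
            linarith [h2.1]
          · exact ⟨by linarith, by linarith [h2.2]⟩
        unfold ind
        rw [if_neg h1, if_pos h2, Set.indicator_of_mem h3]
        have : 0 ≤ (Set.Icc (c - s) c).indicator (fun _ => (1 : ℝ)) y :=
          Set.indicator_nonneg (fun _ _ => zero_le_one) _
        norm_num
        linarith
      · unfold ind
        rw [if_neg h1, if_neg h2, sub_self, abs_zero]
        apply add_nonneg <;> exact Set.indicator_nonneg (fun _ _ => zero_le_one) _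
  have hi1 : Integrable (fun y => (Set.Icc (c - s) c).indicator (fun _ => (1 : ℝ)) y) := by
    apply (integrable_indicator_iff measurableSet_Icc).2
    exact integrableOn_const (by simp)
  have hi2 : Integrable (fun y => (Set.Icc (c + Real.log (1 + h) - s) (c + Real.log (1 + h))).indicator
      (fun _ => (1 : ℝ)) y) := by
    apply (integrable_indicator_iff measurableSet_Icc).2
    exact integrableOn_const (by simp)
  have hgi : Integrable g := by
    rw [hg]
    exact hi1.add hi2
  have hi : Integrable (fun y => |ind h (y + s - c) - ind h (y - c)|) := by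
    refine hgi.mono' ?_ (Eventually.of_forall fun y => ?_)
    · refine Measurable.aestronglyMeasurable ?_
      refine Measurable.abs ?_
      exact ((ind_meas h).comp ((measurable_id.add_const s).sub_const c)).sub
        ((ind_meas h).comp (measurable_id.sub_const c))
    · rw [Real.norm_eq_abs, abs_abs]
      exact hle y
  refine ⟨hi, ?_⟩
  calc ∫ y, |ind h (y + s - c) - ind h (y - c)| ≤ ∫ y, g y := integral_mono hi hgi hle
    _ = 2 * s := by
        rw [hg, integral_add hi1 hi2, integral_indicator measurableSet_Icc, integral_indicator measurableSet_Icc,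
          setIntegral_const, setIntegral_const]
        simp only [smul_eq_mul, mul_one, Measure.real, Real.volume_Icc]
        rw [ENNReal.toReal_ofReal (by linarith), ENNReal.toReal_ofReal (by linarith)]
        ring

lemma bb_var {B : ℝ} {N : ℕ} {I : Finset ℕ} {lam : ℕ → ℝ} (H : Pts B N I lam) (h : ℝ) (hh : 0 < h)
    (hhN : 1 ≤ h * N) (w : ℕ → ℝ) (hw : ∀ n, |w n| ≤ 1) (s : ℝ) (hs : 0 ≤ s) :
    ∫ y, ‖((bb B N I lam h w (y + s + Real.log N) : ℝ) : ℂ) - ((bb B N I lam h w (y + Real.log N) : ℝ) : ℂ)‖ ≤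
      N * s := by
  have hN0 : (0 : ℝ) < N := by exact_mod_cast H.hN
  have hB1 := H.hB
  have e1 : ∀ y, ‖((bb B N I lam h w (y + s + Real.log N) : ℝ) : ℂ) - ((bb B N I lam h w (y + Real.log N) : ℝ) : ℂ)‖ ≤
      (∑ n ∈ I, |ind h (y + s - (Real.log (lam n) - Real.log N)) - ind h (y - (Real.log (lam n) - Real.log N))|) /
        (5 * B * h * N) := by
    intro y
    rw [← Complex.ofReal_sub, Complex.norm_real, Real.norm_eq_abs]
    unfold bb
    rw [← sub_div, abs_div, abs_of_pos (show 0 < 5 * B * h * N by positivity), ← sum_sub_distrib]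
    apply div_le_div_of_nonneg_right _ (by positivity)
    refine (abs_sum_le_sum_abs _ _).trans (sum_le_sum fun n hn => ?_)
    have hn0 : 0 < lam n := hN0.trans_le (H.lo n hn)
    rw [← mul_sub, abs_mul, abs_mul, abs_of_nonneg (show (0 : ℝ) ≤ N / lam n by positivity)]
    have h1 : (N : ℝ) / lam n ≤ 1 := by
      rw [div_le_one hn0]
      exact H.lo n hn
    have h2 : |w n| * (N / lam n) ≤ 1 := by
      calc |w n| * (N / lam n) ≤ 1 * 1 := mul_le_mul (hw n) h1 (by positivity) (by norm_num)
        _ = 1 := one_mul 1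
    have h3 : y + s + Real.log N - Real.log (lam n) = y + s - (Real.log (lam n) - Real.log N) := by ring
    have h4 : y + Real.log N - Real.log (lam n) = y - (Real.log (lam n) - Real.log N) := by ring
    rw [h3, h4]
    calc _ ≤ 1 * |ind h (y + s - (Real.log (lam n) - Real.log N)) - ind h (y - (Real.log (lam n) - Real.log N))| :=
          mul_le_mul_of_nonneg_right h2 (abs_nonneg _)
      _ = _ := one_mul _
  have hi : Integrable (fun y => (∑ n ∈ I, |ind h (y + s - (Real.log (lam n) - Real.log N)) -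
      ind h (y - (Real.log (lam n) - Real.log N))|) / (5 * B * h * N)) := by
    apply Integrable.div_const
    exact integrable_finsetSum _ fun n _ => (ind_var h s hh hs _).1
  calc _ ≤ ∫ y, (∑ n ∈ I, |ind h (y + s - (Real.log (lam n) - Real.log N)) -
      ind h (y - (Real.log (lam n) - Real.log N))|) / (5 * B * h * N) := by
        apply integral_mono_of_nonneg (Eventually.of_forall fun y => norm_nonneg _) hi (Eventually.of_forall e1)
    _ = (∑ n ∈ I, ∫ y, |ind h (y + s - (Real.log (lam n) - Real.log N)) -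
      ind h (y - (Real.log (lam n) - Real.log N))|) / (5 * B * h * N) := by
        rw [integral_div, integral_finsetSum _ fun n _ => (ind_var h s hh hs _).1]
    _ ≤ (∑ n ∈ I, 2 * s) / (5 * B * h * N) := by
        apply div_le_div_of_nonneg_right _ (by positivity)
        exact sum_le_sum fun n _ => (ind_var h s hh hs _).2
    _ ≤ N * s := by
        rw [sum_const, nsmul_eq_mul, div_le_iff₀ (by positivity)]
        have h1 : (I.card : ℝ) * (2 * s) ≤ 2 * B * N * (2 * s) :=
          mul_le_mul_of_nonneg_right H.card_le (by positivity)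
        refine h1.trans ?_
        have h2 : (B * N * s) * 4 ≤ (B * N * s) * (5 * (h * N)) :=
          mul_le_mul_of_nonneg_left (by linarith) (by positivity)
        linarith

/-- the key identity -/
lemma key_id {B : ℝ} {N : ℕ} {I : Finset ℕ} {lam : ℕ → ℝ} (H : Pts B N I lam) (M : ℕ) (h : ℝ) (hh : 0 < h)
    (w : ℕ → ℝ) (α : ℝ) (hα : 0 < α) :
    ∑ n ∈ I, w n / (h * (α * lam n)) * LS M h (α * lam n) =
      5 * B / α * ∑ m ∈ Icc 1 M, (ArithmeticFunction.vonMangoldt m - 1) *
        bb B N I lam h w (Real.log m - Real.log α) := by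
  have hN0 : (0 : ℝ) < N := by exact_mod_cast H.hN
  have hB1 := H.hB
  have hB0 : 0 < B := by linarith
  unfold LS bb
  simp only [sum_div, mul_sum]
  rw [sum_comm]
  refine sum_congr rfl fun m hm => sum_congr rfl fun n hn => ?_
  rw [mem_Icc] at hm
  have hn0 : 0 < lam n := hN0.trans_le (H.lo n hn)
  rw [ind_eq h α (lam n) hh hα hn0 m hm.1]
  field_simp

end Pool.Agent.NH15.DL
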