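import Pool.Agent.NH15.DL.D1

set_option autoImplicit false

/-! The mean square over the real dilations: the main bound. -/

namespace Pool.Agent.NH15.DL

open Finset MeasureTheory Filter Topology
open scoped ENNReal
open Pool.Agent.Y957.VK
open Pool.Agent.H376R2.MR (er)

theorem enorm_sq_le' {z : ℂ} {b : ℝ} (h : ‖z‖ ≤ b) : ‖z‖ₑ ^ 2 ≤ ENNReal.ofReal (b ^ 2) := by
  have hb : 0 ≤ b := (norm_nonneg _).trans h
  rw [ENNReal.ofReal_pow hb, ← ofReal_norm]
  exact pow_le_pow_left' (ENNReal.ofReal_le_ofReal h) 2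

/-- change of variables `α = e^{-u} / N` -/
lemma chg (N : ℕ) (R : ℕ) (hR : 1 ≤ R) (F : ℝ → ℝ≥0∞) :
    ∫⁻ α in Set.Icc (1 / (R : ℝ)) R, F (-Real.log α - Real.log N) ≤ ENNReal.ofReal R * ∫⁻ u, F u := by
  have hR0 : (0 : ℝ) < R := by exact_mod_cast hR
  obtain ⟨f, hf⟩ : ∃ f : ℝ → ℝ, f = fun u => Real.exp (-u - Real.log N) := ⟨_, rfl⟩
  obtain ⟨s, hs⟩ : ∃ s : Set ℝ, s = f ⁻¹' (Set.Icc (1 / (R : ℝ)) R) := ⟨_, rfl⟩
  have hfc : Continuous f := by
    rw [hf]
    fun_prop
  have hsm : MeasurableSet s := by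
    rw [hs]
    exact hfc.measurable measurableSet_Icc
  have him : f '' s = Set.Icc (1 / (R : ℝ)) R := by
    rw [hs, Set.image_preimage_eq_inter_range, Set.inter_eq_left]
    intro α hα
    have hα0 : 0 < α := lt_of_lt_of_le (by positivity) hα.1
    refine ⟨-Real.log α - Real.log N, ?_⟩
    rw [hf]
    simp only
    rw [show -(-Real.log α - Real.log N) - Real.log N = Real.log α by ring, Real.exp_log hα0]
  have hder : ∀ x ∈ s, HasDerivWithinAt f (-Real.exp (-x - Real.log N)) s x := by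
    intro x _
    rw [hf]
    have h1 : HasDerivAt (fun u : ℝ => -u - Real.log N) (-1) x := by
      have := (hasDerivAt_id x).neg.sub_const (Real.log N)
      simpa using this
    have h2 := h1.exp
    have h3 : Real.exp (-x - Real.log N) * -1 = -Real.exp (-x - Real.log N) := by ring
    rw [h3] at h2
    exact h2.hasDerivWithinAt
  have hinj : Set.InjOn f s := by
    intro x _ y _ hxy
    rw [hf] at hxy
    have := Real.exp_injective hxy
    linarith
  have key := lintegral_image_eq_lintegral_abs_deriv_mul hsm hder hinj (fun α => F (-Real.log α - Real.log N))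
  rw [him] at key
  rw [key]
  calc ∫⁻ x in s, ENNReal.ofReal |-Real.exp (-x - Real.log N)| * F (-Real.log (f x) - Real.log N) ≤
      ∫⁻ x in s, ENNReal.ofReal R * F x := by
        apply setLIntegral_mono' hsm
        intro x hx
        rw [hs] at hx
        have h1 : f x ≤ R := hx.2
        have h2 : -Real.log (f x) - Real.log N = x := by
          rw [hf]
          simp only
          rw [Real.log_exp]
          ring
        rw [h2]
        gcongr
        rw [abs_neg, abs_of_pos (Real.exp_pos _)]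
        rw [hf] at h1
        exact h1
    _ ≤ ∫⁻ x, ENNReal.ofReal R * F x := setLIntegral_le_lintegral _ _
    _ = _ := by
        rw [lintegral_const_mul' _ _ ENNReal.ofReal_ne_top]

lemma Gn_eq (N M : ℕ) (f : ℝ → ℝ) (α : ℝ) (L : ℝ) :
    Gn (fun m => if m ≤ M then lamw m / (L : ℂ) else 0) (fun y => ((f (y + Real.log N) : ℝ) : ℂ)) 1 M
        (-Real.log α - Real.log N) =
      (((∑ m ∈ Icc 1 M, (ArithmeticFunction.vonMangoldt m - 1) * f (Real.log m - Real.log α)) / L : ℝ) : ℂ) := by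
  unfold Gn
  rw [Complex.ofReal_div, Complex.ofReal_sum, sum_div]
  refine sum_congr rfl fun m hm => ?_
  rw [mem_Icc] at hm
  beta_reduce
  rw [if_pos hm.2, one_mul, show -Real.log α - Real.log N + Real.log m + Real.log N = Real.log m - Real.log α by ring]
  unfold lamw
  push_cast
  ring

lemma Dn_eq (M : ℕ) (L ξ : ℝ) :
    Dn (fun m => if m ≤ M then lamw m / (L : ℂ) else 0) 1 M ξ =
      (∑ m ∈ Icc 1 M, lamw m * er ξ (Real.log m)) / L := by
  unfold Dn
  rw [sum_div]
  refine sum_congr rfl fun m hm => ?_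
  rw [mem_Icc] at hm
  beta_reduce
  rw [if_pos hm.2, one_mul]
  ring

theorem l2_main (hneg : Neg lamw) (hb : ∀ n : ℕ, ‖lamw n‖ ≤ Real.log (n + 3)) (hpl : S_PLANCH) (R : ℕ) (hR : 1 ≤ R)
    (K : ℕ) : ∃ C : ℝ, 0 < C ∧ ∀ (B : ℝ) (N : ℕ) (I : Finset ℕ) (lam : ℕ → ℝ), 2 ≤ N → Pts B N I lam →
      ∀ h : ℝ, 0 < h → h ≤ 1 → 1 ≤ h * N → ∀ w : ℕ → ℝ, (∀ n, |w n| ≤ 1) →
      ∫⁻ α in Set.Icc (1 / (R : ℝ)) R, ENNReal.ofReal ((∑ n ∈ I, w n / (h * (α * lam n)) *
        LS (4 * R * N) h (α * lam n)) ^ 2) ≤ ENNReal.ofReal (B ^ 2 * (C * (N : ℝ) ^ 2 / (Real.log N) ^ K)) := by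
  obtain ⟨C0, hC0⟩ := hneg 5 K
  have hR0 : (0 : ℝ) < R := by exact_mod_cast hR
  have hR1 : (1 : ℝ) ≤ R := by exact_mod_cast hR
  refine ⟨25 * R ^ 2 * R * (Real.log 4 * C0 ^ 2 * (4 * R) ^ 2 + (K + 2).factorial), by positivity, ?_⟩
  intro B N I lam hN H h hh hh1 hhN w hw
  have hB1 := H.hB
  have hB0 : 0 < B := by linarith
  have hN0 : (0 : ℝ) < N := by exact_mod_cast (by omega : 0 < N)
  have hN2 : (2 : ℝ) ≤ N := by exact_mod_cast hN
  obtain ⟨M, hM⟩ : ∃ M : ℕ, M = 4 * R * N := ⟨_, rfl⟩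
  have hMN : N ≤ M := by
    rw [hM]
    nlinarith
  have hM8 : 8 ≤ M := by
    rw [hM]
    nlinarith
  have hMr : (M : ℝ) = 4 * R * N := by rw [hM]; push_cast; ring
  have hM0 : (0 : ℝ) < M := by exact_mod_cast (by omega : 0 < M)
  have hM8' : (8 : ℝ) ≤ M := by exact_mod_cast hM8
  obtain ⟨L, hL⟩ : ∃ L : ℝ, L = Real.log (M + 3) := ⟨_, rfl⟩
  have hL0 : 0 < L := by
    rw [hL]
    exact Real.log_pos (by linarith)
  have hlN0 : 0 < Real.log N := Real.log_pos (by linarith)
  have hlNM : Real.log N ≤ Real.log M := Real.log_le_log hN0 (by exact_mod_cast hMN)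
  have hlM0 : 0 < Real.log M := by linarith
  rw [← hM]
  -- the Plancherel step
  obtain ⟨S, hS⟩ : ∃ S : ℝ, S = (C0 * M / Real.log M ^ K / L) ^ 2 := ⟨_, rfl⟩
  have hT1 : (1 : ℝ) ≤ (M : ℝ) ^ 4 := one_le_pow₀ (by linarith)
  have P := hpl Unit (Measure.dirac ()) (fun _ m => if m ≤ M then lamw m / (L : ℂ) else 0)
    (fun n => measurable_const) (by
      intro _ n
      split_ifs with hn
      · rw [norm_div, Complex.norm_real, Real.norm_of_nonneg hL0.le, div_le_one hL0]
        refine (hb n).trans ?_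
        rw [hL]
        apply Real.log_le_log (by positivity)
        have : (n : ℝ) ≤ M := by exact_mod_cast hn
        linarith
      · simp)
    (fun y => ((bb B N I lam h w (y + Real.log N) : ℝ) : ℂ))
    (Complex.measurable_ofReal.comp ((bb_meas B N I lam h w).comp (measurable_id.add_const _)))
    (fun y => by
      rw [Complex.norm_real, Real.norm_eq_abs]
      exact bb_le H h hh hh1 hhN w hw _)
    (Real.log 4) N ((M : ℝ) ^ 4) S 1 (Real.log_nonneg (by norm_num))
    (fun y hy => by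
      rw [bb_supp H h hh hh1 w (y + Real.log N) (by rwa [add_sub_cancel_right])]
      simp)
    (fun s hs _ => bb_var H h hh hhN w hw s hs)
    hT1 (by rw [hS]; positivity) M (by
      intro ξ hξ
      have h7 : |ξ| ≤ (M : ℝ) ^ 5 := by
        refine hξ.trans ?_
        have : 2 * Real.pi ≤ M := by linarith [Real.pi_lt_four]
        calc 2 * Real.pi * (M : ℝ) ^ 4 ≤ M * (M : ℝ) ^ 4 := mul_le_mul_of_nonneg_right this (by positivity)
          _ = _ := by ring
      rw [lintegral_dirac, Dn_eq, hS]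
      apply enorm_sq_le'
      rw [norm_div, Complex.norm_real, Real.norm_of_nonneg hL0.le]
      apply div_le_div_of_nonneg_right _ hL0.le
      exact hC0 M ξ (by omega) h7)
  rw [lintegral_dirac] at P
  rw [probReal_univ, one_mul] at P
  -- the pointwise identity
  have hpt : ∀ α ∈ Set.Icc (1 / (R : ℝ)) R, ENNReal.ofReal ((∑ n ∈ I, w n / (h * (α * lam n)) *
        LS M h (α * lam n)) ^ 2) ≤ ENNReal.ofReal (25 * B ^ 2 * R ^ 2 * L ^ 2) *
        ‖Gn (fun m => if m ≤ M then lamw m / (L : ℂ) else 0) (fun y => ((bb B N I lam h w (y + Real.log N) : ℝ) : ℂ)) 1 M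
          (-Real.log α - Real.log N)‖ₑ ^ 2 := by
    intro α hα
    have hα0 : 0 < α := lt_of_lt_of_le (by positivity) hα.1
    rw [key_id H M h hh w α hα0, Gn_eq]
    obtain ⟨X, hX⟩ : ∃ X : ℝ, X = ∑ m ∈ Icc 1 M, (ArithmeticFunction.vonMangoldt m - 1) *
      bb B N I lam h w (Real.log m - Real.log α) := ⟨_, rfl⟩
    rw [← hX, ← ofReal_norm, Complex.norm_real, ← ENNReal.ofReal_pow (norm_nonneg _),
      ← ENNReal.ofReal_mul (by positivity), Real.norm_eq_abs, sq_abs]
    apply ENNReal.ofReal_le_ofReal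
    have h1 : 25 * B ^ 2 * (R : ℝ) ^ 2 * L ^ 2 * (X / L) ^ 2 = (5 * B * R * X) ^ 2 := by
      field_simp
      ring
    rw [h1, mul_pow, mul_pow]
    apply mul_le_mul_of_nonneg_right _ (sq_nonneg _)
    apply pow_le_pow_left₀ (by positivity)
    rw [div_le_iff₀ hα0]
    have h2 := hα.1
    rw [div_le_iff₀ hR0] at h2
    have h3 : 5 * B * 1 ≤ 5 * B * (α * R) := mul_le_mul_of_nonneg_left h2 (by positivity)
    linarith
  calc ∫⁻ α in Set.Icc (1 / (R : ℝ)) R, ENNReal.ofReal ((∑ n ∈ I, w n / (h * (α * lam n)) *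
        LS M h (α * lam n)) ^ 2) ≤ ∫⁻ α in Set.Icc (1 / (R : ℝ)) R, ENNReal.ofReal (25 * B ^ 2 * R ^ 2 * L ^ 2) *
        ‖Gn (fun m => if m ≤ M then lamw m / (L : ℂ) else 0) (fun y => ((bb B N I lam h w (y + Real.log N) : ℝ) : ℂ)) 1 M
          (-Real.log α - Real.log N)‖ₑ ^ 2 := setLIntegral_mono' measurableSet_Icc hpt
    _ = ENNReal.ofReal (25 * B ^ 2 * R ^ 2 * L ^ 2) * ∫⁻ α in Set.Icc (1 / (R : ℝ)) R,
        ‖Gn (fun m => if m ≤ M then lamw m / (L : ℂ) else 0) (fun y => ((bb B N I lam h w (y + Real.log N) : ℝ) : ℂ)) 1 M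
          (-Real.log α - Real.log N)‖ₑ ^ 2 := lintegral_const_mul' _ _ ENNReal.ofReal_ne_top
    _ ≤ ENNReal.ofReal (25 * B ^ 2 * R ^ 2 * L ^ 2) * (ENNReal.ofReal R * ENNReal.ofReal (Real.log 4 * S +
        (M : ℝ) ^ 2 * (N : ℝ) ^ 2 / 8 / (M : ℝ) ^ 4)) := by
        gcongr
        refine (chg N R hR (fun u => ‖Gn (fun m => if m ≤ M then lamw m / (L : ℂ) else 0)
          (fun y => ((bb B N I lam h w (y + Real.log N) : ℝ) : ℂ)) 1 M u‖ₑ ^ 2)).trans ?_
        gcongr
    _ ≤ _ := by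
        rw [← ENNReal.ofReal_mul (by positivity), ← ENNReal.ofReal_mul (by positivity)]
        apply ENNReal.ofReal_le_ofReal
        have e1 : 25 * B ^ 2 * (R : ℝ) ^ 2 * L ^ 2 * (R * (Real.log 4 * S + (M : ℝ) ^ 2 * (N : ℝ) ^ 2 / 8 / (M : ℝ) ^ 4)) =
            B ^ 2 * (25 * R ^ 2 * R * (Real.log 4 * (L ^ 2 * S) + L ^ 2 * (N : ℝ) ^ 2 / (8 * (M : ℝ) ^ 2))) := by
          field_simp
        have e4 : 25 * (R : ℝ) ^ 2 * R * (Real.log 4 * C0 ^ 2 * (4 * R) ^ 2 + (K + 2).factorial) * (N : ℝ) ^ 2 /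
            Real.log N ^ K = 25 * (R : ℝ) ^ 2 * R * (Real.log 4 * (C0 ^ 2 * (4 * R) ^ 2 *
              ((N : ℝ) ^ 2 / (Real.log N) ^ K)) + (K + 2).factorial * ((N : ℝ) ^ 2 / (Real.log N) ^ K)) := by ring
        rw [e1, e4]
        apply mul_le_mul_of_nonneg_left _ (by positivity)
        apply mul_le_mul_of_nonneg_left _ (by positivity)
        have hlK : 0 < (Real.log N) ^ K := by positivity
        apply add_le_add
        · apply mul_le_mul_of_nonneg_left _ (Real.log_nonneg (by norm_num))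
          have e2 : L ^ 2 * S = (C0 * M / Real.log M ^ K) ^ 2 := by
            rw [hS]
            field_simp
          rw [e2, div_pow, mul_pow]
          have h1 : (Real.log N) ^ K ≤ (Real.log M ^ K) ^ 2 := by
            have h2 : 1 ≤ Real.log M := by
              rw [Real.le_log_iff_exp_le hM0]
              linarith [Real.exp_one_lt_d9]
            calc (Real.log N) ^ K ≤ (Real.log M) ^ K := pow_le_pow_left₀ hlN0.le hlNM K
              _ = (Real.log M) ^ K * 1 := (mul_one _).symm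
              _ ≤ (Real.log M) ^ K * (Real.log M) ^ K :=
                mul_le_mul_of_nonneg_left (one_le_pow₀ h2) (by positivity)
              _ = _ := by ring
          have e3 : C0 ^ 2 * (4 * (R : ℝ)) ^ 2 * ((N : ℝ) ^ 2 / (Real.log N) ^ K) =
              C0 ^ 2 * (M : ℝ) ^ 2 / (Real.log N) ^ K := by
            rw [hMr]
            ring
          rw [e3]
          exact div_le_div_of_nonneg_left (by positivity) hlK h1
        · rw [div_le_iff₀ (by positivity)]
          have h1 : (L ^ (K + 2)) ≤ (K + 2).factorial * (M + 3) := by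
            have h2 := Real.pow_div_factorial_le_exp L hL0.le (K + 2)
            have h3 : Real.exp L = M + 3 := by
              rw [hL, Real.exp_log (by positivity)]
            rw [h3, div_le_iff₀ (by positivity)] at h2
            linarith
          have h4 : L ^ 2 * (Real.log N) ^ K ≤ L ^ (K + 2) := by
            rw [pow_add, mul_comm (L ^ 2)]
            apply mul_le_mul_of_nonneg_right _ (by positivity)
            apply pow_le_pow_left₀ hlN0.le
            rw [hL]
            apply Real.log_le_log hN0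
            have : (N : ℝ) ≤ M := by exact_mod_cast hMN
            linarith
          have h5 : (M : ℝ) + 3 ≤ 8 * (M : ℝ) ^ 2 := by nlinarith
          have h6 : L ^ 2 * (Real.log N) ^ K ≤ (K + 2).factorial * (8 * (M : ℝ) ^ 2) :=
            h4.trans (h1.trans (mul_le_mul_of_nonneg_left h5 (by positivity)))
          calc L ^ 2 * (N : ℝ) ^ 2 = L ^ 2 * (Real.log N) ^ K * ((N : ℝ) ^ 2 / (Real.log N) ^ K) := by
                field_simp
            _ ≤ (K + 2).factorial * (8 * (M : ℝ) ^ 2) * ((N : ℝ) ^ 2 / (Real.log N) ^ K) :=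
                mul_le_mul_of_nonneg_right h6 (by positivity)
            _ = _ := by ring

end Pool.Agent.NH15.DL
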