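import Pool.Agent.NH15.DL.D2
import Pool.Agent.NH15.CT.W2

set_option autoImplicit false

/-! From the von Mangoldt function to truncated numbers of primes in the intervals `(x, (1 + h) x]`. -/

namespace Pool.Agent.NH15.DL

open Finset MeasureTheory Filter Topology
open scoped ENNReal
open Pool.Agent.Y957.VK
open Pool.Agent.W301.SS

/-- the number of the primes in `(x, (1 + h) x]` -/
noncomputable def PC (h x : ℝ) : ℕ := ((Ioc ⌊x⌋₊ ⌊(1 + h) * x⌋₊).filter Nat.Prime).card

/-- the normalised number of the primes in `(x, (1 + h) x]` -/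
noncomputable def ZD (N : ℕ) (h x : ℝ) : ℝ := (PC h x : ℝ) * Real.log N / (h * x)

/-- the same, truncated at `M` -/
noncomputable def YD (M : ℝ) (N : ℕ) (h x : ℝ) : ℝ := min (ZD N h x) M

lemma ZD_nonneg (N : ℕ) (h x : ℝ) (hh : 0 ≤ h) (hx : 0 ≤ x) : 0 ≤ ZD N h x :=
  div_nonneg (mul_nonneg (Nat.cast_nonneg _) (Real.log_natCast_nonneg _)) (mul_nonneg hh hx)

lemma PC_le_pn (h x : ℝ) (y : ℕ) (hy : h * x ≤ y) : PC h x ≤ pn ⌊x⌋₊ y := by
  unfold PC pn
  apply card_le_card
  apply filter_subset_filter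
  apply Ioc_subset_Ioc_right
  have h1 := Nat.lt_floor_add_one x
  have h2 : (1 + h) * x < ((⌊x⌋₊ + y + 1 : ℕ) : ℝ) := by
    push_cast
    linarith
  rcases le_or_gt 0 ((1 + h) * x) with h3 | h3
  · have := (Nat.floor_lt h3).2 h2
    omega
  · rw [Nat.floor_of_nonpos h3.le]
    omega

lemma ZD_le (N : ℕ) (h x : ℝ) (hh : 0 < h) (hx : 0 < x) (hhx : 1 ≤ h * x) : ZD N h x ≤ 2 * Real.log N := by
  have hhx0 : 0 < h * x := mul_pos hh hx
  unfold ZD
  rw [div_le_iff₀ hhx0]
  have h1 := PC_le_pn h x ⌈h * x⌉₊ (Nat.le_ceil _)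
  have h2 : (PC h x : ℝ) ≤ ⌈h * x⌉₊ := by exact_mod_cast h1.trans (pn_le _ _)
  have h3 := Nat.ceil_lt_add_one hhx0.le
  have h4 : (PC h x : ℝ) ≤ 2 * (h * x) := by linarith
  calc (PC h x : ℝ) * Real.log N ≤ 2 * (h * x) * Real.log N :=
        mul_le_mul_of_nonneg_right h4 (Real.log_natCast_nonneg _)
    _ = _ := by ring

/-- few points with many primes to their right -/
lemma exc (R U C : ℕ) (M : ℝ) (hR : 1 ≤ R) (hM : 4 < M) : ∀ᶠ N : ℕ in atTop, ∀ (B : ℝ) (I : Finset ℕ) (lam : ℕ → ℝ),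
    Pts B N I lam → B ≤ Real.log N ^ C → ∀ α ∈ Set.Icc (1 / (R : ℝ)) R, ∀ h : ℝ,
    Real.log N ^ (U + C + 30) / N ≤ h → h ≤ 1 →
    ∀ E : Finset ℕ, E ⊆ I → (∀ n ∈ E, M < ZD N h (α * lam n)) → (E.card : ℝ) ≤ N / Real.log N ^ U := by
  classical
  have hR0 : (0 : ℝ) < R := by exact_mod_cast hR
  have hR1 : (1 : ℝ) ≤ R := by exact_mod_cast hR
  obtain ⟨M', hM'⟩ : ∃ M' : ℝ, M' = (M + 4) / 2 := ⟨_, rfl⟩
  obtain ⟨η, hη⟩ : ∃ η : ℝ, η = min (1 / 8) ((M - 4) / (8 * (M + 4))) := ⟨_, rfl⟩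
  have hη0 : 0 < η := by rw [hη]; exact lt_min (by norm_num) (div_pos (by linarith) (by linarith))
  have hη1 : η ≤ 1 / 8 := by rw [hη]; exact min_le_left _ _
  have hηM : η ≤ (M - 4) / (8 * (M + 4)) := by rw [hη]; exact min_le_right _ _
  rw [le_div_iff₀ (by linarith)] at hηM
  have hlr : 0 < Real.log (1 + η) := Real.log_pos (by linarith)
  have ht : Tendsto (fun N : ℕ => 2 * R * N) atTop atTop := by
    apply tendsto_atTop_mono (f := fun N : ℕ => N) _ tendsto_id
    intro N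
    show N ≤ 2 * R * N
    nlinarith
  filter_upwards [ht.eventually (CT.exc (U + C + 4) M' (by rw [hM']; linarith)),
    ev_L (8 * R + 4 * R ^ 2 + 4 * R ^ 2 / η + 8 / Real.log (1 + η) + Real.log (2 * R) + 2 ^ (U + C + 24) + 64),
    eventually_ge_atTop 16] with N h1 hL hN16 B I lam H hBC α hα h hh1 hh2 E hEI hE
  have hNr : (16 : ℝ) ≤ N := by exact_mod_cast hN16
  have hN0 : (0 : ℝ) < N := by linarith
  obtain ⟨L, hLd⟩ : ∃ L, L = Real.log (N : ℝ) := ⟨_, rfl⟩
  rw [← hLd] at hL hh1 hBC ⊢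
  have hd1 : 0 < 4 * (R : ℝ) ^ 2 / η := by positivity
  have hd2 : 0 < 8 / Real.log (1 + η) := by positivity
  have hd3 : 0 ≤ Real.log (2 * (R : ℝ)) := Real.log_nonneg (by linarith)
  have hR2 : 1 ≤ (R : ℝ) ^ 2 := one_le_pow₀ hR1
  have h2p : (0 : ℝ) < 2 ^ (U + C + 24) := by positivity
  have hL64 : 64 ≤ L := by linarith
  have hL1 : 1 ≤ L := by linarith
  have hL0 : 0 < L := by linarith
  have hB1 := H.hB
  -- the new N
  obtain ⟨N', hN'⟩ : ∃ N' : ℕ, N' = 2 * R * N := ⟨_, rfl⟩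
  rw [← hN'] at h1
  have hN'r : (N' : ℝ) = 2 * R * N := by rw [hN']; push_cast; ring
  have hN'0 : (0 : ℝ) < N' := by rw [hN'r]; positivity
  have hNN' : (N : ℝ) ≤ N' := by rw [hN'r]; nlinarith
  obtain ⟨L', hL'd⟩ : ∃ L', L' = Real.log (N' : ℝ) := ⟨_, rfl⟩
  rw [← hL'd] at h1
  have hLL' : L ≤ L' := by rw [hLd, hL'd]; exact Real.log_le_log hN0 hNN'
  have hL'2 : L' ≤ 2 * L := by
    rw [hL'd, hN'r, Real.log_mul (by positivity) (by positivity), ← hLd]
    linarith
  have hL'1 : 1 ≤ L' := by linarith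
  -- the points
  have hα0 : 0 < α := lt_of_lt_of_le (by positivity) hα.1
  have hα1 := hα.1
  rw [div_le_iff₀ hR0] at hα1
  have hh0 : 0 < h := lt_of_lt_of_le (by positivity) hh1
  have hlam : ∀ n ∈ I, (N : ℝ) / R ≤ α * lam n ∧ α * lam n < 2 * R * N := by
    intro n hn
    have e1 := H.lo n hn
    have e2 := H.hi n hn
    constructor
    · rw [div_le_iff₀ hR0]
      calc (N : ℝ) ≤ lam n := e1
        _ = 1 * lam n := (one_mul _).symm
        _ ≤ α * R * lam n := mul_le_mul_of_nonneg_right hα1 (by linarith)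
        _ = _ := by ring
    · calc α * lam n ≤ R * lam n := mul_le_mul_of_nonneg_right hα.2 (by linarith)
        _ < R * (2 * N) := mul_lt_mul_of_pos_left e2 hR0
        _ = _ := by ring
  have hNR : 8 ≤ (N : ℝ) / R := by
    rw [le_div_iff₀ hR0]
    have : L ≤ N := by
      rw [hLd]
      exact (Real.log_le_sub_one_of_pos hN0).trans (by linarith)
    linarith
  have hhN : L ^ (U + C + 30) ≤ h * N := by
    rwa [div_le_iff₀ hN0] at hh1
  have hhx : ∀ n ∈ I, L ^ (U + C + 29) ≤ h * (α * lam n) ∧ h * (α * lam n) < N' := by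
    intro n hn
    obtain ⟨e1, e2⟩ := hlam n hn
    constructor
    · have e3 : h * ((N : ℝ) / R) ≤ h * (α * lam n) := mul_le_mul_of_nonneg_left e1 hh0.le
      refine le_trans ?_ e3
      rw [mul_div_assoc', le_div_iff₀ hR0]
      refine le_trans ?_ hhN
      rw [show U + C + 30 = U + C + 29 + 1 by ring, pow_succ L (U + C + 29)]
      apply mul_le_mul_of_nonneg_left _ (by positivity)
      linarith
    · calc h * (α * lam n) ≤ 1 * (α * lam n) := mul_le_mul_of_nonneg_right hh2 (by linarith)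
        _ < N' := by rw [hN'r, one_mul]; exact e2
  -- the number of the lengths
  obtain ⟨J, hJ⟩ : ∃ J : ℕ, J = ⌊L' / Real.log (1 + η)⌋₊ + 2 := ⟨_, rfl⟩
  have hJ2 : (J : ℝ) ≤ L ^ 2 := by
    have h4 : (J : ℝ) ≤ L' / Real.log (1 + η) + 2 := by
      rw [hJ]; push_cast
      have := Nat.floor_le (show 0 ≤ L' / Real.log (1 + η) by positivity)
      linarith
    have h5 : 8 / Real.log (1 + η) ≤ L - 64 := by nlinarith
    have h6 : L' / Real.log (1 + η) * 4 ≤ L * (L - 64) := by
      calc L' / Real.log (1 + η) * 4 ≤ 2 * L / Real.log (1 + η) * 4 := by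
            apply mul_le_mul_of_nonneg_right _ (by norm_num)
            exact div_le_div_of_nonneg_right hL'2 hlr.le
        _ = L * (8 / Real.log (1 + η)) := by ring
        _ ≤ _ := mul_le_mul_of_nonneg_left h5 hL0.le
    nlinarith
  -- the covering
  obtain ⟨G, hG⟩ : ∃ G : ℕ → Finset ℕ, G = fun j => (Icc 1 N').filter (fun a => L' ^ (U + C + 4 + 20) ≤ (gr η j : ℝ) ∧ M' < CT.Z N' 1 (gr η j) a) :=
    ⟨_, rfl⟩
  have hGc : ∀ j, ((G j).card : ℝ) ≤ N' / L' ^ (U + C + 4) := by
    intro j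
    by_cases hj : L' ^ (U + C + 4 + 20) ≤ (gr η j : ℝ)
    · apply h1 1 (mem_Icc.2 ⟨le_rfl, by have : (1 : ℝ) ≤ N' := by linarith
                                        exact_mod_cast this⟩) (gr η j) hj (G j)
      · rw [hG]; exact filter_subset _ _
      · intro a ha
        rw [hG, mem_filter] at ha
        exact ha.2.2
    · have : G j = ∅ := by
        rw [hG]
        simp only
        rw [filter_eq_empty_iff]
        intro a _ ha
        exact hj ha.1
      rw [this, card_empty, Nat.cast_zero]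
      positivity
  have hcov : E ⊆ (range J).biUnion fun j => (G j).biUnion fun a => I.filter (fun n => ⌊α * lam n⌋₊ = a + 1) := by
    intro n hn
    have hnI := hEI hn
    obtain ⟨e1, e2⟩ := hlam n hnI
    obtain ⟨e3, e4⟩ := hhx n hnI
    obtain ⟨x, hx⟩ : ∃ x : ℝ, x = α * lam n := ⟨_, rfl⟩
    have hZ := hE n hn
    rw [← hx] at e1 e2 e3 e4 hZ
    have hx0 : 0 < x := by linarith
    obtain ⟨y, hy⟩ : ∃ y : ℕ, y = ⌈h * x⌉₊ := ⟨_, rfl⟩
    have hy1 : h * x ≤ y := by rw [hy]; exact Nat.le_ceil _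
    have hy2 : (y : ℝ) < h * x + 1 := by rw [hy]; exact Nat.ceil_lt_add_one (by positivity)
    have hLp : 1 ≤ L ^ (U + C + 28) := one_le_pow₀ hL1
    have hyL : L ≤ h * x := by
      calc L = 1 * L := (one_mul L).symm
        _ ≤ L ^ (U + C + 28) * L := mul_le_mul_of_nonneg_right hLp hL0.le
        _ = L ^ (U + C + 29) := by rw [← pow_succ]
        _ ≤ _ := e3
    have hηL : 1 / η ≤ L := by
      have : 1 / η ≤ 4 * (R : ℝ) ^ 2 / η := by
        apply div_le_div_of_nonneg_right _ hη0.le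
        linarith
      linarith
    have hyN : y ≤ N' := by
      rw [hy]
      exact Nat.ceil_le.2 e4.le
    have hy01 : 1 ≤ y := by
      have : (1 : ℝ) ≤ y := by linarith
      exact_mod_cast this
    obtain ⟨j, g1, g2, g3, g4, g5⟩ := gr_mem hη0 (by linarith) y hy01 (by linarith)
    have hfl := Nat.floor_le hx0.le
    have hfl2 := Nat.lt_floor_add_one x
    have hfl8 : 2 ≤ ⌊x⌋₊ := by
      apply Nat.le_floor
      push_cast
      linarith
    simp only [mem_biUnion, mem_range, mem_filter]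
    refine ⟨j + 1, ?_, ⌊x⌋₊ - 1, ?_, hnI, ?_⟩
    · have f1 : (j : ℝ) ≤ L' / Real.log (1 + η) := by
        rw [le_div_iff₀ hlr, ← Real.log_pow, hL'd]
        apply Real.log_le_log (by positivity)
        refine g1.trans ?_
        exact_mod_cast hyN
      have f2 : j ≤ ⌊L' / Real.log (1 + η)⌋₊ := Nat.le_floor f1
      omega
    · rw [hG]
      simp only
      rw [mem_filter, mem_Icc]
      refine ⟨⟨by omega, ?_⟩, ?_, ?_⟩
      · have : (⌊x⌋₊ : ℝ) ≤ N' := by rw [hN'r]; linarith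
        have : ⌊x⌋₊ ≤ N' := by exact_mod_cast this
        omega
      · -- the length is large
        have f1 : L ^ (U + C + 29) ≤ (gr η (j + 1) : ℝ) := by
          refine (e3.trans hy1).trans ?_
          exact_mod_cast g3
        refine le_trans ?_ f1
        calc L' ^ (U + C + 4 + 20) ≤ (2 * L) ^ (U + C + 4 + 20) := pow_le_pow_left₀ (by linarith) hL'2 _
          _ = 2 ^ (U + C + 24) * L ^ (U + C + 24) := by rw [mul_pow]
          _ ≤ L * L ^ (U + C + 24) := mul_le_mul_of_nonneg_right (by linarith) (by positivity)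
          _ = L ^ (U + C + 25) := by rw [pow_succ L (U + C + 24)]; ring
          _ ≤ _ := pow_le_pow_right₀ hL1 (by omega)
      · -- many primes
        have f0 : ⌊x⌋₊ - 1 + 1 = ⌊x⌋₊ := by omega
        unfold CT.Z
        rw [f0, ← hL'd]
        obtain ⟨y1, hy1d⟩ : ∃ y1 : ℕ, y1 = gr η (j + 1) := ⟨_, rfl⟩
        rw [← hy1d] at g3 g4 ⊢
        have f1 : PC h x ≤ pn ⌊x⌋₊ y1 := (PC_le_pn h x y hy1).trans (pn_mono g3)
        have f1r : (PC h x : ℝ) ≤ pn ⌊x⌋₊ y1 := by exact_mod_cast f1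
        have hhx0 : 0 < h * x := by positivity
        have hηhx : 1 ≤ η * (h * x) := by
          have : 1 / η ≤ h * x := hηL.trans hyL
          rw [div_le_iff₀ hη0] at this
          linarith
        have f2 : (y1 : ℝ) ≤ (1 + η) ^ 2 * (h * x) := by
          refine g4.trans ?_
          nlinarith
        have hy10 : (0 : ℝ) < y1 := by
          have : 1 ≤ y1 := hy01.trans g3
          exact_mod_cast this
        unfold ZD at hZ
        rw [lt_div_iff₀ hhx0, ← hLd] at hZ
        rw [lt_div_iff₀ hy10]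
        have f3 : M' * (1 + η) ^ 2 ≤ M := by
          rw [hM']
          nlinarith
        calc M' * y1 ≤ M' * ((1 + η) ^ 2 * (h * x)) := mul_le_mul_of_nonneg_left f2 (by rw [hM']; linarith)
          _ = M' * (1 + η) ^ 2 * (h * x) := by ring
          _ ≤ M * (h * x) := mul_le_mul_of_nonneg_right f3 hhx0.le
          _ < PC h x * L := hZ
          _ ≤ _ := mul_le_mul f1r hLL' hL0.le (Nat.cast_nonneg _)
    · rw [← hx]
      omega
  -- the number of the points in a fibre
  have hfib : ∀ a : ℕ, ((I.filter (fun n => ⌊α * lam n⌋₊ = a + 1)).card : ℝ) ≤ 2 * B * R := by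
    intro a
    have f1 := thin_count H.thin ((a + 1) / α) (1 / α) (by positivity)
    have f2 : (I.filter (fun n => ⌊α * lam n⌋₊ = a + 1)) ⊆
        I.filter (fun n => ((a : ℝ) + 1) / α ≤ lam n ∧ lam n ≤ ((a : ℝ) + 1) / α + 1 / α) := by
      intro n hn
      rw [mem_filter] at hn ⊢
      obtain ⟨e1, e2⟩ := hlam n hn.1
      have e3 : (0 : ℝ) < α * lam n := by linarith
      have e4 := Nat.floor_le e3.le
      have e5 := Nat.lt_floor_add_one (α * lam n)
      rw [hn.2] at e4 e5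
      push_cast at e4 e5
      refine ⟨hn.1, ?_, ?_⟩
      · rw [div_le_iff₀ hα0]
        linarith
      · rw [← add_div, le_div_iff₀ hα0]
        linarith
    have f3 : ((I.filter (fun n => ⌊α * lam n⌋₊ = a + 1)).card : ℝ) ≤ B * (1 / α + 1) := by
      refine le_trans ?_ f1
      exact_mod_cast card_le_card f2
    refine f3.trans ?_
    have f4 : 1 / α ≤ R := by
      rw [div_le_iff₀ hα0]
      linarith
    nlinarith
  have h2 : (E.card : ℝ) ≤ ∑ j ∈ range J, ∑ a ∈ G j, ((I.filter (fun n => ⌊α * lam n⌋₊ = a + 1)).card : ℝ) := by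
    exact_mod_cast (card_le_card hcov).trans (card_biUnion_le.trans (sum_le_sum fun j _ => card_biUnion_le))
  refine h2.trans ?_
  have h3 : ∀ j ∈ range J, ∑ a ∈ G j, ((I.filter (fun n => ⌊α * lam n⌋₊ = a + 1)).card : ℝ) ≤
      N' / L' ^ (U + C + 4) * (2 * B * R) := by
    intro j _
    calc ∑ a ∈ G j, ((I.filter (fun n => ⌊α * lam n⌋₊ = a + 1)).card : ℝ) ≤ ∑ _a ∈ G j, 2 * B * R :=
          sum_le_sum fun a _ => hfib a
      _ = (G j).card * (2 * B * R) := by rw [sum_const, nsmul_eq_mul]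
      _ ≤ _ := mul_le_mul_of_nonneg_right (hGc j) (by positivity)
  refine (sum_le_sum h3).trans ?_
  rw [sum_const, card_range, nsmul_eq_mul]
  have h4 : (N' : ℝ) / L' ^ (U + C + 4) ≤ 2 * R * N / L ^ (U + C + 4) := by
    rw [hN'r]
    apply div_le_div_of_nonneg_left (by positivity) (by positivity)
    exact pow_le_pow_left₀ hL0.le hLL' _
  calc (J : ℝ) * (N' / L' ^ (U + C + 4) * (2 * B * R)) ≤ L ^ 2 * (2 * R * N / L ^ (U + C + 4) * (2 * L ^ C * R)) := by
        apply mul_le_mul hJ2 _ (by positivity) (by positivity)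
        apply mul_le_mul h4 _ (by positivity) (by positivity)
        apply mul_le_mul_of_nonneg_right _ hR0.le
        linarith
    _ = (4 * R ^ 2 / L ^ 2) * (N / L ^ U) := by
        rw [show U + C + 4 = U + C + 2 + 2 by ring, pow_add L (U + C + 2), pow_add L (U + C), pow_add L U]
        field_simp
        ring
    _ ≤ 1 * (N / L ^ U) := by
        apply mul_le_mul_of_nonneg_right _ (by positivity)
        rw [div_le_one (by positivity)]
        nlinarith
    _ = _ := one_mul _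

end Pool.Agent.NH15.DL
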