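import Pool.Agent.NH15.DL.D3

set_option autoImplicit false

/-! One dilation: from the sums with `Λ - 1` to the truncated numbers of primes. -/

namespace Pool.Agent.NH15.DL

open Finset MeasureTheory Filter Topology
open scoped ENNReal
open Pool.Agent.Y957.VK
open Pool.Agent.W301.SS

lemma LS_eq (M : ℕ) (h x : ℝ) (hx : 0 ≤ x) (hh : 0 ≤ h) (hM : (1 + h) * x ≤ M) :
    LS M h x = ∑ m ∈ Ioc ⌊x⌋₊ ⌊(1 + h) * x⌋₊, (ArithmeticFunction.vonMangoldt m - 1) := by
  unfold LS
  simp only [mul_ite, mul_one, mul_zero]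
  rw [← sum_filter]
  apply sum_congr _ fun _ _ => rfl
  ext m
  have hx2 : 0 ≤ (1 + h) * x := by positivity
  rw [mem_filter, mem_Icc, mem_Ioc, Nat.floor_lt hx, Nat.le_floor_iff hx2]
  constructor
  · rintro ⟨-, h1⟩
    exact h1
  · rintro ⟨h1, h2⟩
    refine ⟨⟨?_, ?_⟩, h1, h2⟩
    · have : (0 : ℝ) < m := hx.trans_lt h1
      exact_mod_cast this
    · exact_mod_cast h2.trans hM

/-- the sum of `log p` over the primes in `(x, (1 + h) x]` -/
noncomputable def TH (h x : ℝ) : ℝ := ∑ p ∈ (Ioc ⌊x⌋₊ ⌊(1 + h) * x⌋₊).filter Nat.Prime, Real.log p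

/-- the contribution of the prime powers -/
noncomputable def PP (h x : ℝ) : ℝ :=
  ∑ m ∈ (Ioc ⌊x⌋₊ ⌊(1 + h) * x⌋₊).filter (fun m => ¬ m.Prime), ArithmeticFunction.vonMangoldt m

lemma LS_split (M : ℕ) (h x : ℝ) (hx : 0 ≤ x) (hh : 0 ≤ h) (hM : (1 + h) * x ≤ M) :
    LS M h x = TH h x + PP h x - ((Ioc ⌊x⌋₊ ⌊(1 + h) * x⌋₊).card : ℝ) := by
  rw [LS_eq M h x hx hh hM, sum_sub_distrib, sum_const, nsmul_eq_mul, mul_one]
  congr 1
  rw [← sum_filter_add_sum_filter_not (Ioc ⌊x⌋₊ ⌊(1 + h) * x⌋₊) Nat.Prime]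
  unfold TH PP
  congr 1
  apply sum_congr rfl
  intro p hp
  exact ArithmeticFunction.vonMangoldt_apply_prime (mem_filter.1 hp).2

lemma cnt_abs (h x : ℝ) (hx : 0 ≤ x) (hh : 0 ≤ h) : |((Ioc ⌊x⌋₊ ⌊(1 + h) * x⌋₊).card : ℝ) - h * x| ≤ 1 := by
  have hx2 : 0 ≤ (1 + h) * x := by positivity
  have h1 := Nat.floor_le hx
  have h2 := Nat.lt_floor_add_one x
  have h3 := Nat.floor_le hx2
  have h4 := Nat.lt_floor_add_one ((1 + h) * x)
  have h5 : ⌊x⌋₊ ≤ ⌊(1 + h) * x⌋₊ := Nat.floor_le_floor (by nlinarith)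
  rw [Nat.card_Ioc, Nat.cast_sub h5, abs_le]
  constructor <;> linarith

lemma PP_nonneg (h x : ℝ) : 0 ≤ PP h x := sum_nonneg fun _ _ => ArithmeticFunction.vonMangoldt_nonneg

/-- the contribution of the prime powers to the mean -/
lemma PP_sum {B : ℝ} {N : ℕ} {I : Finset ℕ} {lam : ℕ → ℝ} (H : Pts B N I lam) (R : ℕ) (hR : 1 ≤ R) (h : ℝ) (hh : 0 < h)
    (hh1 : h ≤ 1) (hhN : 1 ≤ h * N) (α : ℝ) (hα : α ∈ Set.Icc (1 / (R : ℝ)) R) :
    ∑ n ∈ I, PP h (α * lam n) / (h * (α * lam n)) ≤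
      5 * B * R * (2 * √((4 * R * N : ℕ) : ℝ) * Real.log ((4 * R * N : ℕ) : ℝ)) := by
  classical
  have hR0 : (0 : ℝ) < R := by exact_mod_cast hR
  have hN0 : (0 : ℝ) < N := by exact_mod_cast H.hN
  have hB1 := H.hB
  have hα0 : 0 < α := lt_of_lt_of_le (by positivity) hα.1
  have hα1 := hα.1
  rw [div_le_iff₀ hR0] at hα1
  obtain ⟨M, hM⟩ : ∃ M : ℕ, M = 4 * R * N := ⟨_, rfl⟩
  have hMr : (M : ℝ) = 4 * R * N := by rw [hM]; push_cast; ring
  have hlam : ∀ n ∈ I, (N : ℝ) / R ≤ α * lam n ∧ α * lam n < 2 * R * N := by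
    intro n hn
    have e1 := H.lo n hn
    have e2 := H.hi n hn
    constructor
    · rw [div_le_iff₀ hR0]
      calc (N : ℝ) ≤ lam n := e1
        _ = 1 * lam n := (one_mul _).symm
        _ ≤ α * R * lam n := mul_le_mul_of_nonneg_right hα1 (by linarith)
        _ = _ := by ring
    · calc α * lam n ≤ R * lam n := mul_le_mul_of_nonneg_right hα.2 (by linarith)
        _ < R * (2 * N) := mul_lt_mul_of_pos_left e2 hR0
        _ = _ := by ring
  rw [← hM]
  have e1 : ∀ n ∈ I, PP h (α * lam n) / (h * (α * lam n)) ≤ R / (h * N) *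
      ∑ m ∈ (Ioc 0 M).filter (fun m => ¬ m.Prime), ArithmeticFunction.vonMangoldt m * ind h (Real.log m - Real.log α - Real.log (lam n)) := by
    intro n hn
    obtain ⟨f1, f2⟩ := hlam n hn
    have hx0 : 0 < α * lam n := lt_of_lt_of_le (by positivity) f1
    have hl0 : 0 < lam n := hN0.trans_le (H.lo n hn)
    have f3 : PP h (α * lam n) = ∑ m ∈ (Ioc 0 M).filter (fun m => ¬ m.Prime), ArithmeticFunction.vonMangoldt m *
        ind h (Real.log m - Real.log α - Real.log (lam n)) := by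
      have hx2 : 0 ≤ (1 + h) * (α * lam n) := by positivity
      have f4 : ∀ m ∈ (Ioc 0 M).filter (fun m => ¬ m.Prime), ArithmeticFunction.vonMangoldt m *
          ind h (Real.log m - Real.log α - Real.log (lam n)) =
          if α * lam n < m ∧ (m : ℝ) ≤ (1 + h) * (α * lam n) then ArithmeticFunction.vonMangoldt m else 0 := by
        intro m hm
        rw [mem_filter, mem_Ioc] at hm
        rw [ind_eq h α (lam n) hh hα0 hl0 m (by omega)]
        split_ifs <;> simp
      rw [sum_congr rfl f4, ← sum_filter, filter_filter]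
      unfold PP
      apply sum_congr _ fun _ _ => rfl
      ext m
      rw [mem_filter, mem_filter, mem_Ioc, mem_Ioc, Nat.floor_lt hx0.le, Nat.le_floor_iff hx2]
      constructor
      · rintro ⟨⟨g1, g2⟩, g3⟩
        refine ⟨⟨?_, ?_⟩, g3, g1, g2⟩
        · have : (0 : ℝ) < m := hx0.trans g1
          exact_mod_cast this
        · have : (m : ℝ) ≤ M := by
            refine g2.trans ?_
            rw [hMr]
            nlinarith
          exact_mod_cast this
      · rintro ⟨-, g3, g1, g2⟩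
        exact ⟨⟨g1, g2⟩, g3⟩
    rw [← f3, div_eq_inv_mul]
    apply mul_le_mul_of_nonneg_right _ (PP_nonneg _ _)
    rw [inv_le_iff_one_le_mul₀ (by positivity), div_mul_eq_mul_div, le_div_iff₀ (by positivity), one_mul]
    rw [div_le_iff₀ hR0] at f1
    calc h * N ≤ h * (α * lam n * R) := mul_le_mul_of_nonneg_left f1 hh.le
      _ = _ := by ring
  refine (sum_le_sum e1).trans ?_
  rw [← mul_sum, sum_comm]
  simp only [← mul_sum]
  have e2 : ∑ m ∈ (Ioc 0 M).filter (fun m => ¬ m.Prime), ArithmeticFunction.vonMangoldt m *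
      ∑ n ∈ I, ind h (Real.log m - Real.log α - Real.log (lam n)) ≤
      ∑ m ∈ (Ioc 0 M).filter (fun m => ¬ m.Prime), ArithmeticFunction.vonMangoldt m * (5 * B * h * N) := by
    apply sum_le_sum
    intro m _
    apply mul_le_mul_of_nonneg_left _ ArithmeticFunction.vonMangoldt_nonneg
    exact count_le H h hh hh1 hhN _
  have e3 : ∑ m ∈ (Ioc 0 M).filter (fun m => ¬ m.Prime), ArithmeticFunction.vonMangoldt m ≤
      2 * √(M : ℝ) * Real.log M := by
    have := Chebyshev.psi_sub_theta_eq_sum_not_prime (M : ℝ)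
    rw [Nat.floor_natCast] at this
    rw [← this]
    apply Chebyshev.psi_sub_theta_le
    have : 1 ≤ M := by
      rw [hM]
      have := H.hN
      nlinarith
    exact_mod_cast this
  calc R / (h * N) * ∑ m ∈ (Ioc 0 M).filter (fun m => ¬ m.Prime), ArithmeticFunction.vonMangoldt m *
      ∑ n ∈ I, ind h (Real.log m - Real.log α - Real.log (lam n)) ≤
      R / (h * N) * ∑ m ∈ (Ioc 0 M).filter (fun m => ¬ m.Prime), ArithmeticFunction.vonMangoldt m * (5 * B * h * N) :=
        mul_le_mul_of_nonneg_left e2 (by positivity)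
    _ = 5 * B * R * ∑ m ∈ (Ioc 0 M).filter (fun m => ¬ m.Prime), ArithmeticFunction.vonMangoldt m := by
        rw [← sum_mul]
        field_simp
    _ ≤ _ := mul_le_mul_of_nonneg_left e3 (by positivity)

/-- one dilation -/
theorem step (R U C : ℕ) (M δ : ℝ) (hR : 1 ≤ R) (hM : 4 < M) (hδ : 0 < δ) (hδ1 : δ ≤ 1) :
    ∀ᶠ N : ℕ in atTop, ∀ (B : ℝ) (I : Finset ℕ) (lam : ℕ → ℝ),
    Pts B N I lam → B ≤ Real.log N ^ C → ∀ α ∈ Set.Icc (1 / (R : ℝ)) R, ∀ h : ℝ,
    Real.log N ^ (U + C + 40) / N ≤ h → h ≤ 1 → ∀ w : ℕ → ℝ, (∀ n, 0 ≤ w n) → (∀ n, w n ≤ 1) →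
    |∑ n ∈ I, w n / (h * (α * lam n)) * LS (4 * R * N) h (α * lam n)| ≤ N / Real.log N ^ (U + 1) →
    |∑ n ∈ I, w n * (YD M N h (α * lam n) - 1)| ≤ δ * ∑ n ∈ I, w n + N / Real.log N ^ U := by
  classical
  have hR0 : (0 : ℝ) < R := by exact_mod_cast hR
  have hR1 : (1 : ℝ) ≤ R := by exact_mod_cast hR
  obtain ⟨η, hη⟩ : ∃ η, η = δ / 4 := ⟨_, rfl⟩
  have hη0 : 0 < η := by rw [hη]; positivity
  have hη1 : η ≤ 1 / 4 := by rw [hη]; linarith
  filter_upwards [exc R (U + 2) C M hR hM,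
    ev_L (4 * R + Real.log (4 * R) / η + Real.log (4 * R) + 64), ev_log (C + U + 2) (40 * R ^ 2) (1 / 2) (by norm_num),
    eventually_ge_atTop 16] with N hX hL hlog hN16 B I lam H hBC α hα h hh1 hh2 w hw0 hw1 hS
  have hNr : (16 : ℝ) ≤ N := by exact_mod_cast hN16
  have hN0 : (0 : ℝ) < N := by linarith
  obtain ⟨L, hLd⟩ : ∃ L, L = Real.log (N : ℝ) := ⟨_, rfl⟩
  have hX2 := hX B I lam H hBC α hα h
  rw [← hLd] at hL hh1 hBC hS hlog hX2 ⊢
  have hlR : 0 ≤ Real.log (4 * (R : ℝ)) := Real.log_nonneg (by linarith)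
  have hlR2 : 0 ≤ Real.log (4 * (R : ℝ)) / η := by positivity
  have hL64 : 64 ≤ L := by linarith
  have hL1 : 1 ≤ L := by linarith
  have hL0 : 0 < L := by linarith
  have hB1 := H.hB
  have hα0 : 0 < α := lt_of_lt_of_le (by positivity) hα.1
  have hα1 := hα.1
  rw [div_le_iff₀ hR0] at hα1
  have hh0 : 0 < h := lt_of_lt_of_le (by positivity) hh1
  have hhN : L ^ (U + C + 40) ≤ h * N := by rwa [div_le_iff₀ hN0] at hh1
  have hhN1 : 1 ≤ h * N := (one_le_pow₀ hL1).trans hhN
  have hX3 := hX2 (by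
    refine le_trans ?_ hh1
    apply div_le_div_of_nonneg_right _ hN0.le
    exact pow_le_pow_right₀ hL1 (by omega)) hh2
  have hlam : ∀ n ∈ I, (N : ℝ) / R ≤ α * lam n ∧ α * lam n < 2 * R * N := by
    intro n hn
    have e1 := H.lo n hn
    have e2 := H.hi n hn
    constructor
    · rw [div_le_iff₀ hR0]
      calc (N : ℝ) ≤ lam n := e1
        _ = 1 * lam n := (one_mul _).symm
        _ ≤ α * R * lam n := mul_le_mul_of_nonneg_right hα1 (by linarith)
        _ = _ := by ring
    · calc α * lam n ≤ R * lam n := mul_le_mul_of_nonneg_right hα.2 (by linarith)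
        _ < R * (2 * N) := mul_lt_mul_of_pos_left e2 hR0
        _ = _ := by ring
  have hx0 : ∀ n ∈ I, 0 < α * lam n := fun n hn => lt_of_lt_of_le (by positivity) (hlam n hn).1
  have hhx : ∀ n ∈ I, L ^ (U + C + 39) ≤ h * (α * lam n) := by
    intro n hn
    have e3 : h * ((N : ℝ) / R) ≤ h * (α * lam n) := mul_le_mul_of_nonneg_left (hlam n hn).1 hh0.le
    refine le_trans ?_ e3
    rw [mul_div_assoc', le_div_iff₀ hR0]
    refine le_trans ?_ hhN
    rw [show U + C + 40 = U + C + 39 + 1 by ring, pow_succ L (U + C + 39)]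
    apply mul_le_mul_of_nonneg_left _ (by positivity)
    linarith
  have hhx1 : ∀ n ∈ I, 1 ≤ h * (α * lam n) := fun n hn => (one_le_pow₀ hL1).trans (hhx n hn)
  have hhx0 : ∀ n ∈ I, 0 < h * (α * lam n) := fun n hn => by linarith [hhx1 n hn]
  obtain ⟨e, he⟩ : ∃ e : ℝ, e = N / L ^ (U + 1) := ⟨_, rfl⟩
  have he0 : 0 < e := by rw [he]; positivity
  rw [← he] at hS
  have he4 : 64 * e ≤ N / L ^ U := by
    have e1 : N / L ^ U = L * e := by
      rw [he, pow_succ]
      field_simp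
    rw [e1]
    exact mul_le_mul_of_nonneg_right hL64 he0.le
  obtain ⟨W, hW⟩ : ∃ W, W = ∑ n ∈ I, w n := ⟨_, rfl⟩
  rw [← hW]
  have hW0 : 0 ≤ W := by rw [hW]; exact sum_nonneg fun a _ => hw0 a
  -- the sums with `log p`
  obtain ⟨T, hT⟩ : ∃ T, T = ∑ n ∈ I, w n * (TH h (α * lam n) / (h * (α * lam n))) := ⟨_, rfl⟩
  obtain ⟨S, hSd⟩ : ∃ S, S = ∑ n ∈ I, w n / (h * (α * lam n)) * LS (4 * R * N) h (α * lam n) := ⟨_, rfl⟩
  rw [← hSd] at hS
  obtain ⟨P, hP⟩ : ∃ P, P = ∑ n ∈ I, w n * (PP h (α * lam n) / (h * (α * lam n))) := ⟨_, rfl⟩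
  obtain ⟨Q, hQ⟩ : ∃ Q, Q = ∑ n ∈ I, w n * (((Ioc ⌊α * lam n⌋₊ ⌊(1 + h) * (α * lam n)⌋₊).card : ℝ) /
    (h * (α * lam n)) - 1) := ⟨_, rfl⟩
  have hid : T = S - P + Q + W := by
    rw [hT, hSd, hP, hQ, hW, ← sum_sub_distrib, ← sum_add_distrib, ← sum_add_distrib]
    apply sum_congr rfl
    intro n hn
    rw [LS_split (4 * R * N) h (α * lam n) (hx0 n hn).le hh0.le (by
      push_cast
      have f1 := (hlam n hn).2
      have f2 := hx0 n hn
      nlinarith)]
    have := (hhx0 n hn).ne'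
    field_simp
    ring
  have hP0 : 0 ≤ P := by
    rw [hP]
    exact sum_nonneg fun n hn => mul_nonneg (hw0 n) (div_nonneg (PP_nonneg _ _) (hhx0 n hn).le)
  have hP1 : P ≤ e := by
    have f1 : P ≤ ∑ n ∈ I, PP h (α * lam n) / (h * (α * lam n)) := by
      rw [hP]
      apply sum_le_sum
      intro n hn
      have : 0 ≤ PP h (α * lam n) / (h * (α * lam n)) := div_nonneg (PP_nonneg _ _) (hhx0 n hn).le
      calc w n * (PP h (α * lam n) / (h * (α * lam n))) ≤ 1 * (PP h (α * lam n) / (h * (α * lam n))) :=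
            mul_le_mul_of_nonneg_right (hw1 n) this
        _ = _ := one_mul _
    refine f1.trans ((PP_sum H R hR h hh0 hh2 hhN1 α hα).trans ?_)
    have f2 : Real.log ((4 * R * N : ℕ) : ℝ) ≤ 2 * L := by
      push_cast
      rw [Real.log_mul (by positivity) (by positivity), ← hLd]
      linarith
    have f3 : √((4 * R * N : ℕ) : ℝ) ≤ 2 * R * √(N : ℝ) := by
      push_cast
      rw [show (2 * R * √(N : ℝ)) = √((2 * R) ^ 2 * N) by
        rw [Real.sqrt_mul (by positivity), Real.sqrt_sq (by positivity)]]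
      apply Real.sqrt_le_sqrt
      apply mul_le_mul_of_nonneg_right _ hN0.le
      nlinarith
    have f4 : √(N : ℝ) * √(N : ℝ) = N := Real.mul_self_sqrt hN0.le
    have f5 : 40 * (R : ℝ) ^ 2 * L ^ (C + U + 2) ≤ √(N : ℝ) := by
      rw [Real.sqrt_eq_rpow]
      exact hlog
    have hsq0 : 0 ≤ √(N : ℝ) := Real.sqrt_nonneg _
    calc 5 * B * R * (2 * √((4 * R * N : ℕ) : ℝ) * Real.log ((4 * R * N : ℕ) : ℝ)) ≤
          5 * L ^ C * R * (2 * (2 * R * √(N : ℝ)) * (2 * L)) := by
          apply mul_le_mul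
          · apply mul_le_mul_of_nonneg_right _ hR0.le
            linarith
          · apply mul_le_mul _ f2 (Real.log_natCast_nonneg _) (by positivity)
            linarith
          · exact mul_nonneg (by positivity) (Real.log_natCast_nonneg _)
          · positivity
      _ = 40 * (R : ℝ) ^ 2 * L ^ (C + U + 2) * √(N : ℝ) / L ^ (U + 1) := by
          rw [show C + U + 2 = C + (U + 1) + 1 by ring, pow_succ L (C + (U + 1)), pow_add L C]
          field_simp
          ring
      _ ≤ √(N : ℝ) * √(N : ℝ) / L ^ (U + 1) := by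
          apply div_le_div_of_nonneg_right _ (by positivity)
          exact mul_le_mul_of_nonneg_right f5 hsq0
      _ = e := by rw [f4, he]
  have hQ1 : |Q| ≤ e := by
    rw [hQ]
    refine (abs_sum_le_sum_abs _ _).trans ?_
    have f1 : ∀ n ∈ I, |w n * (((Ioc ⌊α * lam n⌋₊ ⌊(1 + h) * (α * lam n)⌋₊).card : ℝ) /
        (h * (α * lam n)) - 1)| ≤ 1 / L ^ (U + C + 39) := by
      intro n hn
      have g1 := hhx0 n hn
      have g2 : ((Ioc ⌊α * lam n⌋₊ ⌊(1 + h) * (α * lam n)⌋₊).card : ℝ) / (h * (α * lam n)) - 1 =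
          (((Ioc ⌊α * lam n⌋₊ ⌊(1 + h) * (α * lam n)⌋₊).card : ℝ) - h * (α * lam n)) / (h * (α * lam n)) := by
        rw [sub_div, div_self g1.ne']
      rw [g2, abs_mul, abs_of_nonneg (hw0 n), abs_div, abs_of_pos g1]
      calc w n * (|((Ioc ⌊α * lam n⌋₊ ⌊(1 + h) * (α * lam n)⌋₊).card : ℝ) - h * (α * lam n)| / (h * (α * lam n))) ≤
            1 * (1 / L ^ (U + C + 39)) := by
            apply mul_le_mul (hw1 n) _ (div_nonneg (abs_nonneg _) g1.le) (by norm_num)
            exact div_le_div₀ (by norm_num) (cnt_abs h _ (hx0 n hn).le hh0.le) (by positivity) (hhx n hn)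
        _ = _ := one_mul _
    refine (sum_le_sum f1).trans ?_
    rw [sum_const, nsmul_eq_mul]
    calc (I.card : ℝ) * (1 / L ^ (U + C + 39)) ≤ 2 * L ^ C * N * (1 / L ^ (U + C + 39)) := by
          apply mul_le_mul_of_nonneg_right _ (by positivity)
          refine H.card_le.trans ?_
          apply mul_le_mul_of_nonneg_right _ hN0.le
          linarith
      _ = 2 / L ^ 38 * (N / L ^ (U + 1)) := by
          rw [show U + C + 39 = U + 1 + C + 38 by ring, pow_add L (U + 1 + C), pow_add L (U + 1)]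
          field_simp
      _ ≤ 1 * e := by
          rw [← he]
          apply mul_le_mul_of_nonneg_right _ he0.le
          rw [div_le_one (by positivity)]
          calc (2 : ℝ) ≤ L := by linarith
            _ = L ^ 1 := (pow_one L).symm
            _ ≤ L ^ 38 := pow_le_pow_right₀ hL1 (by norm_num)
      _ = e := one_mul e
  have hTW : |T - W| ≤ 3 * e := by
    rw [hid]
    rw [abs_le] at hS hQ1 ⊢
    constructor <;> linarith [hS.1, hS.2, hQ1.1, hQ1.2]
  rw [abs_le] at hTW
  obtain ⟨Z, hZ⟩ : ∃ Z, Z = ∑ n ∈ I, w n * ZD N h (α * lam n) := ⟨_, rfl⟩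
  have hZD0 : ∀ n ∈ I, 0 ≤ ZD N h (α * lam n) := fun n hn => ZD_nonneg _ _ _ hh0.le (hx0 n hn).le
  -- upper and lower bounds for `log p`
  have hlogp : ∀ n ∈ I, (1 - η) * ZD N h (α * lam n) ≤ TH h (α * lam n) / (h * (α * lam n)) ∧
      TH h (α * lam n) / (h * (α * lam n)) ≤ (1 + η) * ZD N h (α * lam n) := by
    intro n hn
    have g1 := hhx0 n hn
    have g2 := hx0 n hn
    obtain ⟨g3, g4⟩ := hlam n hn
    have g5 : ∀ p ∈ (Ioc ⌊α * lam n⌋₊ ⌊(1 + h) * (α * lam n)⌋₊).filter Nat.Prime,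
        (1 - η) * L ≤ Real.log p ∧ Real.log p ≤ (1 + η) * L := by
      intro p hp
      rw [mem_filter, mem_Ioc, Nat.floor_lt g2.le, Nat.le_floor_iff (by positivity)] at hp
      obtain ⟨⟨q1, q2⟩, q3⟩ := hp
      have hp0 : (0 : ℝ) < p := by exact_mod_cast q3.pos
      have q4 : Real.log (4 * (R : ℝ)) ≤ η * L := by
        have : Real.log (4 * (R : ℝ)) / η ≤ L := by linarith
        rw [div_le_iff₀ hη0] at this
        linarith
      constructor
      · have : Real.log ((N : ℝ) / (4 * R)) ≤ Real.log p := by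
          apply Real.log_le_log (by positivity)
          have : (N : ℝ) / (4 * R) ≤ N / R := by
            apply div_le_div_of_nonneg_left hN0.le hR0
            linarith
          linarith
        rw [Real.log_div (by positivity) (by positivity), ← hLd] at this
        linarith
      · have : Real.log p ≤ Real.log (4 * R * N) := by
          apply Real.log_le_log hp0
          nlinarith
        rw [Real.log_mul (by positivity) (by positivity), ← hLd] at this
        linarith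
    have e1 : ZD N h (α * lam n) = (PC h (α * lam n) : ℝ) * L / (h * (α * lam n)) := by
      unfold ZD
      rw [← hLd]
    have e2 : (PC h (α * lam n) : ℝ) = ∑ _p ∈ (Ioc ⌊α * lam n⌋₊ ⌊(1 + h) * (α * lam n)⌋₊).filter Nat.Prime, (1 : ℝ) := by
      unfold PC
      rw [sum_const, nsmul_eq_mul, mul_one]
    rw [e1]
    constructor
    · rw [mul_div_assoc']
      apply div_le_div_of_nonneg_right _ g1.le
      rw [e2, sum_mul, mul_sum]
      unfold TH
      apply sum_le_sum
      intro p hp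
      rw [one_mul]
      exact (g5 p hp).1
    · rw [mul_div_assoc']
      apply div_le_div_of_nonneg_right _ g1.le
      rw [e2, sum_mul, mul_sum]
      unfold TH
      apply sum_le_sum
      intro p hp
      rw [one_mul]
      exact (g5 p hp).2
  have k1 : T ≤ (1 + η) * Z := by
    rw [hT, hZ, mul_sum]
    apply sum_le_sum
    intro n hn
    calc _ ≤ w n * ((1 + η) * ZD N h (α * lam n)) := mul_le_mul_of_nonneg_left (hlogp n hn).2 (hw0 n)
      _ = _ := by ring
  have k2 : (1 - η) * Z ≤ T := by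
    rw [hT, hZ, mul_sum]
    apply sum_le_sum
    intro n hn
    calc (1 - η) * (w n * ZD N h (α * lam n)) = w n * ((1 - η) * ZD N h (α * lam n)) := by ring
      _ ≤ _ := mul_le_mul_of_nonneg_left (hlogp n hn).1 (hw0 n)
  have hZ0 : 0 ≤ Z := by rw [hZ]; exact sum_nonneg fun n hn => mul_nonneg (hw0 n) (hZD0 n hn)
  -- the truncation
  obtain ⟨V, hV⟩ : ∃ V, V = ∑ n ∈ I, w n * YD M N h (α * lam n) := ⟨_, rfl⟩
  have k3 : V ≤ Z := by
    rw [hV, hZ]
    apply sum_le_sum
    intro n _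
    exact mul_le_mul_of_nonneg_left (min_le_left _ _) (hw0 n)
  have k4 : Z - V ≤ 2 * e := by
    have e1 : Z - V = ∑ n ∈ I, w n * (ZD N h (α * lam n) - YD M N h (α * lam n)) := by
      rw [hZ, hV, ← sum_sub_distrib]
      apply sum_congr rfl
      intro a _
      ring
    rw [e1]
    have e2 : ∑ n ∈ I, w n * (ZD N h (α * lam n) - YD M N h (α * lam n)) =
        ∑ n ∈ I.filter (fun n => M < ZD N h (α * lam n)), w n * (ZD N h (α * lam n) - YD M N h (α * lam n)) := by
      symm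
      apply sum_subset (filter_subset _ _)
      intro a ha hna
      rw [mem_filter, not_and] at hna
      have f1 := not_lt.1 (hna ha)
      unfold YD
      rw [min_eq_left f1, sub_self, mul_zero]
    rw [e2]
    have e3 : ∀ n ∈ I.filter (fun n => M < ZD N h (α * lam n)),
        w n * (ZD N h (α * lam n) - YD M N h (α * lam n)) ≤ 2 * L := by
      intro n hn
      rw [mem_filter] at hn
      have f1 := ZD_le N h (α * lam n) hh0 (hx0 n hn.1) (hhx1 n hn.1)
      rw [← hLd] at f1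
      have f2 : 0 ≤ YD M N h (α * lam n) := le_min (hZD0 n hn.1) (by linarith)
      have f3 : YD M N h (α * lam n) ≤ ZD N h (α * lam n) := min_le_left _ _
      calc w n * (ZD N h (α * lam n) - YD M N h (α * lam n)) ≤ 1 * (ZD N h (α * lam n) - YD M N h (α * lam n)) :=
            mul_le_mul_of_nonneg_right (hw1 n) (by linarith)
        _ ≤ 2 * L := by linarith
    refine (sum_le_sum e3).trans ?_
    rw [sum_const, nsmul_eq_mul]
    have e4 := hX3 (I.filter (fun n => M < ZD N h (α * lam n))) (filter_subset _ _) (fun n hn => (mem_filter.1 hn).2)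
    calc _ ≤ (N / L ^ (U + 2)) * (2 * L) := mul_le_mul_of_nonneg_right e4 (by linarith)
      _ = 2 * e := by
          rw [he, show U + 2 = U + 1 + 1 by ring, pow_succ L (U + 1)]
          field_simp
  have k5 : ∑ n ∈ I, w n * (YD M N h (α * lam n) - 1) = V - W := by
    rw [hV, hW, ← sum_sub_distrib]
    apply sum_congr rfl
    intro a _
    ring
  rw [k5]
  have k6 : |V - W| ≤ δ * W + 20 * e := by
    have hR1 : W - 3 * e ≤ (1 + η) * Z := by linarith [hTW.1]
    have hR2 : (1 - η) * Z ≤ W + 3 * e := by linarith [hTW.2]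
    have hR3 : W - 3 * e - η * W ≤ Z := by
      by_contra hc
      rw [not_le] at hc
      have : (1 + η) * Z < (1 + η) * (W - 3 * e - η * W) := mul_lt_mul_of_pos_left hc (by linarith)
      have h7 : (1 + η) * (W - 3 * e - η * W) ≤ W - 3 * e := by
        nlinarith [mul_nonneg hη0.le he0.le, mul_nonneg (mul_nonneg hη0.le hη0.le) hW0]
      linarith
    have hR4 : Z ≤ W + 2 * η * W + 6 * e := by
      by_contra hc
      rw [not_le] at hc
      have h7 : (1 - η) * (W + 2 * η * W + 6 * e) < (1 - η) * Z := mul_lt_mul_of_pos_left hc (by linarith)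
      have h8 : W + 3 * e ≤ (1 - η) * (W + 2 * η * W + 6 * e) := by
        have f1 : 0 ≤ η * W * (1 - 2 * η) := mul_nonneg (mul_nonneg hη0.le hW0) (by linarith)
        have f2 : 0 ≤ e * (3 - 6 * η) := mul_nonneg he0.le (by linarith)
        have f3 : (1 - η) * (W + 2 * η * W + 6 * e) = W + 3 * e + η * W * (1 - 2 * η) + e * (3 - 6 * η) := by
          ring
        linarith
      linarith
    have hδη : δ * W = 4 * (η * W) := by rw [hη]; ring
    have hηW : 0 ≤ η * W := mul_nonneg hη0.le hW0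
    rw [abs_le]
    constructor <;> linarith
  linarith

end Pool.Agent.NH15.DL
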