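import Pool.Agent.NH15.DL.D4
import Pool.Agent.NH15.CT.V1

set_option autoImplicit false

/-! The measure of the exceptional dilations for fixed weights. -/

namespace Pool.Agent.NH15.DL

open Finset MeasureTheory Filter Topology
open scoped ENNReal
open Pool.Agent.Y957.VK
open Pool.Agent.W301.SS

lemma LS_meas (M : ℕ) (h : ℝ) : Measurable (LS M h) := by
  unfold LS
  apply Finset.measurable_sum
  intro m _
  apply Measurable.const_mul
  apply Measurable.ite
  · apply MeasurableSet.inter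
    · exact measurableSet_lt measurable_id measurable_const
    · exact measurableSet_le measurable_const (measurable_id.const_mul _)
  · exact measurable_const
  · exact measurable_const

/-- few bad dilations for a fixed weight -/
theorem one (hneg : Neg lamw) (hb : ∀ n : ℕ, ‖lamw n‖ ≤ Real.log (n + 3)) (hpl : S_PLANCH)
    (R U C : ℕ) (M δ : ℝ) (hR : 1 ≤ R) (hM : 4 < M) (hδ : 0 < δ) (hδ1 : δ ≤ 1) :
    ∀ᶠ N : ℕ in atTop, ∀ (B : ℝ) (I : Finset ℕ) (lam : ℕ → ℝ),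
    Pts B N I lam → B ≤ Real.log N ^ C → ∀ h : ℝ,
    Real.log N ^ (U + C + 40) / N ≤ h → h ≤ 1 → ∀ w : ℕ → ℝ, (∀ n, 0 ≤ w n) → (∀ n, w n ≤ 1) →
    (volume.restrict (Set.Icc (1 / (R : ℝ)) R)) {α | δ * ∑ n ∈ I, w n + N / Real.log N ^ U <
      |∑ n ∈ I, w n * (YD M N h (α * lam n) - 1)|} ≤ ENNReal.ofReal (1 / Real.log N ^ U) := by
  obtain ⟨C0, hC0, h0⟩ := l2_main hneg hb hpl R hR (2 * C + 3 * U + 3)
  filter_upwards [step R U C M δ hR hM hδ hδ1, ev_L (C0 + 64), eventually_ge_atTop 16] with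
    N hst hL hN16 B I lam H hBC h hh1 hh2 w hw0 hw1
  have hNr : (16 : ℝ) ≤ N := by exact_mod_cast hN16
  have hN0 : (0 : ℝ) < N := by linarith
  have hst' := hst B I lam H hBC
  have h0' := h0 B N I lam (by omega) H h
  obtain ⟨L, hLd⟩ : ∃ L, L = Real.log (N : ℝ) := ⟨_, rfl⟩
  rw [← hLd] at hL hh1 hBC hst' h0' ⊢
  have hL64 : 64 ≤ L := by linarith
  have hL1 : 1 ≤ L := by linarith
  have hL0 : 0 < L := by linarith
  have hB1 := H.hB
  have hh0 : 0 < h := lt_of_lt_of_le (by positivity) hh1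
  have hhN : L ^ (U + C + 40) ≤ h * N := by rwa [div_le_iff₀ hN0] at hh1
  have hhN1 : 1 ≤ h * N := (one_le_pow₀ hL1).trans hhN
  have key := h0' hh0 hh2 hhN1 w (fun n => by rw [abs_of_nonneg (hw0 n)]; exact hw1 n)
  obtain ⟨e, he⟩ : ∃ e : ℝ, e = N / L ^ (U + 1) := ⟨_, rfl⟩
  have he0 : 0 < e := by rw [he]; positivity
  obtain ⟨S, hS⟩ : ∃ S : ℝ → ℝ, S = fun α => ∑ n ∈ I, w n / (h * (α * lam n)) * LS (4 * R * N) h (α * lam n) := ⟨_, rfl⟩
  have hSm : Measurable S := by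
    rw [hS]
    apply Finset.measurable_sum
    intro n _
    have h1 : Measurable (fun α : ℝ => α * lam n) := measurable_id.mul_const _
    exact ((measurable_const.div (h1.const_mul h))).mul ((LS_meas (4 * R * N) h).comp h1)
  have hsub : {α | δ * ∑ n ∈ I, w n + N / L ^ U < |∑ n ∈ I, w n * (YD M N h (α * lam n) - 1)|} ∩
      Set.Icc (1 / (R : ℝ)) R ⊆ {α | ENNReal.ofReal (e ^ 2) ≤ ENNReal.ofReal ((S α) ^ 2)} := by
    rintro α ⟨h1, h2⟩
    rw [Set.mem_ofPred_eq] at h1 ⊢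
    have h3 : ¬ |S α| ≤ e := by
      intro h4
      rw [hS, he] at h4
      exact absurd (hst' α h2 h hh1 hh2 w hw0 hw1 h4) (not_le.2 h1)
    rw [not_le] at h3
    apply ENNReal.ofReal_le_ofReal
    rw [← sq_abs (S α)]
    exact pow_le_pow_left₀ he0.le h3.le 2
  have hmarkov := mul_meas_ge_le_lintegral (μ := volume.restrict (Set.Icc (1 / (R : ℝ)) R))
    (f := fun α => ENNReal.ofReal ((S α) ^ 2)) ((hSm.pow_const 2).ennreal_ofReal) (ENNReal.ofReal (e ^ 2))
  have h3 : (volume.restrict (Set.Icc (1 / (R : ℝ)) R)) {α | δ * ∑ n ∈ I, w n + N / L ^ U <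
      |∑ n ∈ I, w n * (YD M N h (α * lam n) - 1)|} ≤
      (volume.restrict (Set.Icc (1 / (R : ℝ)) R)) {α | ENNReal.ofReal (e ^ 2) ≤ ENNReal.ofReal ((S α) ^ 2)} := by
    apply measure_mono_ae
    exact (ae_restrict_mem measurableSet_Icc).mono fun α h2 h1 => hsub ⟨h1, h2⟩
  have he2 : 0 < e ^ 2 := by positivity
  have h5 : ENNReal.ofReal (e ^ 2) * ((volume.restrict (Set.Icc (1 / (R : ℝ)) R))
      {α | ENNReal.ofReal (e ^ 2) ≤ ENNReal.ofReal ((S α) ^ 2)}) ≤
      ENNReal.ofReal (B ^ 2 * (C0 * (N : ℝ) ^ 2 / L ^ (2 * C + 3 * U + 3))) := by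
    refine hmarkov.trans ?_
    rw [hS]
    exact key
  refine h3.trans ?_
  have h6 : (volume.restrict (Set.Icc (1 / (R : ℝ)) R))
      {α | ENNReal.ofReal (e ^ 2) ≤ ENNReal.ofReal ((S α) ^ 2)} ≤
      ENNReal.ofReal (B ^ 2 * (C0 * (N : ℝ) ^ 2 / L ^ (2 * C + 3 * U + 3))) / ENNReal.ofReal (e ^ 2) := by
    rw [ENNReal.le_div_iff_mul_le (Or.inl (by simpa using he0.ne')) (Or.inl ENNReal.ofReal_ne_top), mul_comm]
    exact h5
  refine h6.trans ?_
  rw [← ENNReal.ofReal_div_of_pos he2]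
  apply ENNReal.ofReal_le_ofReal
  have hB2 : B ^ 2 ≤ L ^ (2 * C) := by
    rw [mul_comm 2 C, pow_mul]
    exact pow_le_pow_left₀ (by linarith) hBC 2
  rw [div_le_iff₀ he2, he]
  calc B ^ 2 * (C0 * (N : ℝ) ^ 2 / L ^ (2 * C + 3 * U + 3)) ≤ L ^ (2 * C) * (L * (N : ℝ) ^ 2 / L ^ (2 * C + 3 * U + 3)) := by
        apply mul_le_mul hB2 _ (by positivity) (by positivity)
        apply div_le_div_of_nonneg_right _ (by positivity)
        apply mul_le_mul_of_nonneg_right _ (by positivity)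
        linarith
    _ = 1 / L ^ U * (N / L ^ (U + 1)) ^ 2 := by
        rw [show 2 * C + 3 * U + 3 = 2 * C + 1 + (U + 2 * (U + 1)) by ring, pow_add L (2 * C + 1), pow_succ L (2 * C),
          pow_add L U, div_pow, ← pow_mul]
        rw [mul_comm (U + 1) 2]
        field_simp

end Pool.Agent.NH15.DL
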