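import Pool.Agent.NH15.DL.D5

set_option autoImplicit false

/-! The probability that a sequence of independent dilations is bad at one of its members. -/

namespace Pool.Agent.NH15.DL

open Finset MeasureTheory Filter Topology ProbabilityTheory
open scoped ENNReal
open Pool.Agent.Y957.VK
open Pool.Agent.W301.SS
open Pool.Agent.NH15.CT

lemma PC_meas (h : ℝ) : Measurable (fun x => (PC h x : ℝ)) := by
  have h1 : Measurable (fun x : ℝ => (⌊x⌋₊, ⌊(1 + h) * x⌋₊)) :=
    (Nat.measurable_floor).prodMk (Nat.measurable_floor.comp (measurable_id.const_mul _))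
  have h2 : Measurable (fun p : ℕ × ℕ => (((Ioc p.1 p.2).filter Nat.Prime).card : ℝ)) := Measurable.of_discrete
  exact h2.comp h1

lemma ZD_meas (N : ℕ) (h : ℝ) : Measurable (ZD N h) := by
  unfold ZD
  exact ((PC_meas h).mul_const _).div (measurable_id.const_mul _)

lemma ZD_nonneg' (N : ℕ) (h x : ℝ) (hh : 0 ≤ h) : 0 ≤ ZD N h x := by
  rcases le_or_gt 0 x with hx | hx
  · exact ZD_nonneg N h x hh hx
  · have : PC h x = 0 := by
      unfold PC
      rw [Nat.floor_of_nonpos hx.le, Nat.floor_of_nonpos (by nlinarith)]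
      simp
    unfold ZD
    rw [this]
    simp

lemma phi_meas (t : ℝ) (q : Fin 3) : Measurable (phi t q) := by
  unfold phi
  by_cases h0 : q = 0
  · simp only [if_pos h0]
    fun_prop
  · simp only [if_neg h0]
    by_cases h1 : q = 1
    · simp only [if_pos h1]
      fun_prop
    · simp only [if_neg h1]
      exact Measurable.ite (measurableSet_eq) measurable_const measurable_const

/-- the weights -/
noncomputable def wv (ε : ℝ) (N : ℕ) (A : Finset ℕ) (lam : ℕ → ℝ) (h : ℝ) (q : Fin 3) (u j : ℕ) (x : ℕ → ℝ) (a : ℕ) : ℝ :=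
  wt A (phi (ε / 20) q) (fun i a => min (ZD N h (x i * lam a)) (4 + ε)) u j a

lemma wv_nonneg (ε : ℝ) (N : ℕ) (A : Finset ℕ) (lam : ℕ → ℝ) (h : ℝ) (q : Fin 3) (u j : ℕ) (x : ℕ → ℝ) (a : ℕ) :
    0 ≤ wv ε N A lam h q u j x a := wt_nonneg fun v => phi_nonneg _ q v

lemma wv_le (ε : ℝ) (hε : 0 < ε) (hε1 : ε ≤ 1 / 4) (N : ℕ) (A : Finset ℕ) (lam : ℕ → ℝ) (h : ℝ) (hh : 0 ≤ h) (q : Fin 3)
    (u j : ℕ) (x : ℕ → ℝ) (a : ℕ) : wv ε N A lam h q u j x a ≤ 1 :=
  wt_le (fun v => phi_nonneg _ q v)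
    (fun i => phi_le _ (by positivity) q _ (le_min (ZD_nonneg' _ _ _ hh) (by linarith))
      ((min_le_right _ _).trans (by linarith)))

lemma wv_congr (ε : ℝ) (N : ℕ) (A : Finset ℕ) (lam : ℕ → ℝ) (h : ℝ) (q : Fin 3) (u j : ℕ) (x y : ℕ → ℝ)
    (hxy : ∀ i < j, x i = y i) (a : ℕ) : wv ε N A lam h q u j x a = wv ε N A lam h q u j y a := by
  unfold wv wt
  congr 1
  apply prod_congr rfl
  intro i hi
  rw [mem_Ico] at hi
  simp only
  rw [hxy i hi.2]

lemma wv_meas {α : Type*} [MeasurableSpace α] (ε : ℝ) (N : ℕ) (A : Finset ℕ) (lam : ℕ → ℝ) (h : ℝ) (q : Fin 3) (u j : ℕ)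
    (x : α → ℕ → ℝ) (hx : ∀ i, Measurable fun p => x p i) (a : ℕ) :
    Measurable (fun p => wv ε N A lam h q u j (x p) a) := by
  unfold wv wt
  apply Measurable.const_mul
  apply Finset.measurable_prod
  intro i _
  apply (phi_meas _ q).comp
  exact ((ZD_meas N h).comp ((hx i).mul_const _)).min measurable_const

/-- the sequence `x` is bad at its member `j` -/
def Ev (ε : ℝ) (D N : ℕ) (A : Finset ℕ) (lam : ℕ → ℝ) (h : ℝ) (q : Fin 3) (u j : ℕ) (x : ℕ → ℝ) : Prop :=
  (ε / 40) * ∑ a ∈ A, wv ε N A lam h q u j x a + N / Real.log N ^ D <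
    |∑ a ∈ A, wv ε N A lam h q u j x a * (YD (4 + ε) N h (x j * lam a) - 1)|

open Classical in
/-- the extension of a finite sequence -/
noncomputable def ext (j : ℕ) (p : ↥(range j) → ℝ) (i : ℕ) : ℝ := if h : i ∈ range j then p ⟨i, h⟩ else 1

lemma ext_meas (j i : ℕ) : Measurable fun p : (↥(range j) → ℝ) => ext j p i := by
  unfold ext
  by_cases h : i ∈ range j
  · simp only [dif_pos h]
    exact measurable_pi_apply _
  · simp only [dif_neg h]
    exact measurable_const

theorem ev_le (ε : ℝ) (hε : 0 < ε) (hε1 : ε ≤ 1 / 4) (D N R : ℕ) (A : Finset ℕ) (lam : ℕ → ℝ) (h : ℝ) (hh : 0 ≤ h)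
    (hone : ∀ w : ℕ → ℝ, (∀ n, 0 ≤ w n) → (∀ n, w n ≤ 1) →
      (volume.restrict (Set.Icc (1 / (R : ℝ)) R)) {α | ε / 40 * ∑ n ∈ A, w n + N / Real.log N ^ D <
        |∑ n ∈ A, w n * (YD (4 + ε) N h (α * lam n) - 1)|} ≤ ENNReal.ofReal (1 / Real.log N ^ D))
    {Ω : Type*} [MeasurableSpace Ω] (P : Measure Ω) [IsProbabilityMeasure P] (X : ℕ → Ω → ℝ)
    (hXm : ∀ i, Measurable (X i)) (hXi : iIndepFun X P) (d : ℝ)
    (hXd : ∀ i, P.map (X i) ≤ ENNReal.ofReal d • (volume.restrict (Set.Icc (1 / (R : ℝ)) R))) (q : Fin 3) (u j : ℕ) :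
    P {ω | Ev ε D N A lam h q u j (fun i => X i ω)} ≤ ENNReal.ofReal d * ENNReal.ofReal (1 / Real.log N ^ D) := by
  classical
  obtain ⟨Φ, hΦ⟩ : ∃ Φ : Ω → (↥(range j) → ℝ), Φ = fun ω (i : ↥(range j)) => X i ω := ⟨_, rfl⟩
  have hΦm : Measurable Φ := by
    rw [hΦ]
    exact measurable_pi_lambda _ fun i => hXm i
  have hind : IndepFun Φ (X j) P := by
    have h1 := hXi.indepFun_finset (range j) {j} (by simp) hXm
    have h2 := h1.comp measurable_id (measurable_pi_apply (⟨j, mem_singleton_self j⟩ : ({j} : Finset ℕ)))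
    rw [hΦ]
    exact h2
  have hmap := (indepFun_iff_map_prod_eq_prod_map_map hΦm.aemeasurable (hXm j).aemeasurable).1 hind
  obtain ⟨T, hT⟩ : ∃ T : Set ((↥(range j) → ℝ) × ℝ), T = {pt | (ε / 40) * ∑ a ∈ A, wv ε N A lam h q u j (ext j pt.1) a +
    N / Real.log N ^ D < |∑ a ∈ A, wv ε N A lam h q u j (ext j pt.1) a * (YD (4 + ε) N h (pt.2 * lam a) - 1)|} := ⟨_, rfl⟩
  have hwm : ∀ a, Measurable (fun pt : (↥(range j) → ℝ) × ℝ => wv ε N A lam h q u j (ext j pt.1) a) := fun a =>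
    wv_meas ε N A lam h q u j (fun pt : (↥(range j) → ℝ) × ℝ => ext j pt.1)
      (fun i => (ext_meas j i).comp measurable_fst) a
  have hTm : MeasurableSet T := by
    rw [hT]
    apply measurableSet_lt
    · apply Measurable.add_const
      apply Measurable.const_mul
      exact Finset.measurable_sum _ fun a _ => hwm a
    · apply Measurable.abs
      apply Finset.measurable_sum
      intro a _
      apply (hwm a).mul
      apply Measurable.sub_const
      unfold YD
      exact ((ZD_meas N h).comp (measurable_snd.mul_const _)).min measurable_const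
  have hpre : {ω | Ev ε D N A lam h q u j (fun i => X i ω)} = (fun ω => (Φ ω, X j ω)) ⁻¹' T := by
    ext ω
    rw [hT, hΦ]
    simp only [Set.mem_preimage, Set.mem_ofPred_eq]
    unfold Ev
    have h1 : ∀ a, wv ε N A lam h q u j (fun i => X i ω) a =
        wv ε N A lam h q u j (ext j (fun i : ↥(range j) => X i ω)) a := by
      intro a
      apply wv_congr
      intro i hi
      unfold ext
      rw [dif_pos (mem_range.2 hi)]
    simp only [h1]
  rw [hpre, ← Measure.map_apply (hΦm.prodMk (hXm j)) hTm, hmap, Measure.prod_apply hTm]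
  have hprob : IsProbabilityMeasure (P.map Φ) := Measure.isProbabilityMeasure_map hΦm.aemeasurable
  calc ∫⁻ p, (P.map (X j)) (Prod.mk p ⁻¹' T) ∂(P.map Φ) ≤
        ∫⁻ _p, ENNReal.ofReal d * ENNReal.ofReal (1 / Real.log N ^ D) ∂(P.map Φ) := by
        apply lintegral_mono
        intro p
        refine (hXd j _).trans ?_
        rw [Measure.smul_apply, smul_eq_mul]
        refine mul_le_mul' le_rfl ?_
        rw [hT]
        exact hone (fun a => wv ε N A lam h q u j (ext j p) a) (fun a => wv_nonneg _ _ _ _ _ _ _ _ _ _)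
          (fun a => wv_le ε hε hε1 N A lam h hh q u j _ a)
    _ = _ := by
        rw [lintegral_const, measure_univ, mul_one]

end Pool.Agent.NH15.DL
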