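import Pool.Agent.NH15.DL.D6

set_option autoImplicit false

/-! The deterministic conclusions for a sequence of dilations which is good at all its members. -/

namespace Pool.Agent.NH15.DL

open Finset MeasureTheory Filter Topology
open Pool.Agent.W301.SS
open Pool.Agent.NH15.CT

/-- the normalised number of the primes in the intervals `(x i t, (1 + h) x i t]`, `i < k` -/
noncomputable def SS (N k : ℕ) (x : ℕ → ℝ) (h t : ℝ) : ℝ := ∑ i ∈ range k, ZD N h (x i * t)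

open Classical in
/-- the conclusions -/
def GoodD (ε : ℝ) (C κ K N : ℕ) (A : Finset ℕ) (lam : ℕ → ℝ) (x : ℕ → ℝ) : Prop :=
  ∀ k : ℕ, (k : ℝ) ≤ Real.log N ^ C →
    (∀ h : ℝ, Real.log N ^ K / N ≤ h → h ≤ 1 →
      ((A.filter fun a => ε * k < |SS N k x h (lam a) - k|).card : ℝ) ≤
        4 * Real.exp (-(ε ^ 2 * k / 100)) * A.card + N / Real.log N ^ C ∧
      ((A.filter fun a => ∀ i < k, PC h (x i * lam a) = 0).card : ℝ) ≤
        (3 / 4 + ε) ^ k * A.card + N / Real.log N ^ C) ∧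
    (κ * Real.log (Real.log N) ≤ k → ((A.filter fun a => ¬ ∀ h : ℝ, Real.log N ^ K / N ≤ h → h ≤ 1 →
      |SS N k x h (lam a) - k| ≤ ε * k).card : ℝ) ≤ N / Real.log N ^ C)

/-- the grid -/
noncomputable def hg (ε : ℝ) (g : ℕ) : ℝ := 1 / (1 + ε / 8) ^ g

lemma hg_pos (ε : ℝ) (hε : 0 < ε) (g : ℕ) : 0 < hg ε g := by unfold hg; positivity

lemma hg_le (ε : ℝ) (hε : 0 < ε) (g : ℕ) : hg ε g ≤ 1 := by
  unfold hg
  rw [div_le_one (by positivity)]
  exact one_le_pow₀ (by linarith)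

/-- the number of the members of the grid -/
noncomputable def JJ (ε : ℝ) (N : ℕ) : ℕ := ⌊Real.log N / Real.log (1 + ε / 8)⌋₊ + 2

lemma JJ_le (ε : ℝ) (hε : 0 < ε) : ∀ᶠ N : ℕ in atTop, (JJ ε N : ℝ) ≤ Real.log N ^ 2 := by
  have hlr : 0 < Real.log (1 + ε / 8) := Real.log_pos (by linarith)
  filter_upwards [ev_L (2 / Real.log (1 + ε / 8) + 4)] with N hL
  obtain ⟨L, hLd⟩ : ∃ L, L = Real.log (N : ℝ) := ⟨_, rfl⟩
  unfold JJ
  rw [← hLd] at hL ⊢
  have h1 : 0 < 2 / Real.log (1 + ε / 8) := by positivity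
  have hL0 : 0 < L := by linarith
  push_cast
  have h2 := Nat.floor_le (show 0 ≤ L / Real.log (1 + ε / 8) by positivity)
  have h3 : L / Real.log (1 + ε / 8) * 2 ≤ L * (L - 4) := by
    calc L / Real.log (1 + ε / 8) * 2 = L * (2 / Real.log (1 + ε / 8)) := by ring
      _ ≤ _ := mul_le_mul_of_nonneg_left (by linarith) hL0.le
  nlinarith

lemma grid (ε : ℝ) (hε : 0 < ε) (N : ℕ) (hN : 1 ≤ N) (h : ℝ) (hh : 0 < h) (hh1 : h ≤ 1) (hhN : 1 / (N : ℝ) ≤ h) :
    ∃ g : ℕ, g + 1 < JJ ε N ∧ h ≤ hg ε g ∧ hg ε g ≤ (1 + ε / 8) * h ∧ hg ε (g + 1) ≤ h ∧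
      h ≤ (1 + ε / 8) * hg ε (g + 1) := by
  have hlr : 0 < Real.log (1 + ε / 8) := Real.log_pos (by linarith)
  have hN0 : (0 : ℝ) < N := by exact_mod_cast hN
  obtain ⟨g, h1, h2⟩ := exists_nat_pow_near (show 1 ≤ 1 / h by rw [le_div_iff₀ hh]; linarith)
    (show 1 < 1 + ε / 8 by linarith)
  have hp : 0 < (1 + ε / 8) ^ g := by positivity
  rw [le_div_iff₀ hh] at h1
  rw [div_lt_iff₀ hh, pow_succ] at h2
  have e1 : (1 + ε / 8) * hg ε (g + 1) = hg ε g := by
    unfold hg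
    rw [pow_succ]
    field_simp
  have h3 : h ≤ hg ε g := by
    unfold hg
    rw [le_div_iff₀ hp]
    linarith
  have h4 : hg ε (g + 1) ≤ h := by
    unfold hg
    rw [div_le_iff₀ (by positivity), pow_succ]
    linarith
  refine ⟨g, ?_, h3, ?_, h4, ?_⟩
  · have h5 : (g : ℝ) ≤ Real.log N / Real.log (1 + ε / 8) := by
      rw [le_div_iff₀ hlr, ← Real.log_pow]
      apply Real.log_le_log hp
      rw [div_le_iff₀ hN0] at hhN
      nlinarith
    have h6 : g ≤ ⌊Real.log N / Real.log (1 + ε / 8)⌋₊ := Nat.le_floor h5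
    unfold JJ
    omega
  · rw [← e1]
    exact mul_le_mul_of_nonneg_left h4 (by linarith)
  · rw [e1]
    exact h3

lemma SS_mono (N k : ℕ) (x : ℕ → ℝ) (t h h' : ℝ) (hx : ∀ i, 0 ≤ x i) (ht : 0 ≤ t) (hh : 0 < h) (hh' : h ≤ h') :
    h * SS N k x h t ≤ h' * SS N k x h' t := by
  unfold SS
  rw [mul_sum, mul_sum]
  apply sum_le_sum
  intro i _
  have hxt : 0 ≤ x i * t := mul_nonneg (hx i) ht
  rcases hxt.eq_or_lt with h0 | h0
  · unfold ZD
    rw [← h0]
    simp
  · have e : ∀ g : ℝ, 0 < g → g * ZD N g (x i * t) = PC g (x i * t) * Real.log N / (x i * t) := by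
      intro g hg
      unfold ZD
      field_simp
    rw [e h hh, e h' (by linarith)]
    apply div_le_div_of_nonneg_right _ hxt
    apply mul_le_mul_of_nonneg_right _ (Real.log_natCast_nonneg _)
    unfold PC
    apply Nat.cast_le.2
    apply card_le_card
    apply filter_subset_filter
    apply Ioc_subset_Ioc_right
    apply Nat.floor_le_floor
    nlinarith

lemma between (ε : ℝ) (hε : 0 < ε) (hε1 : ε ≤ 1 / 4) (k : ℝ) (hk : 0 ≤ k) (h h0 h1 S S0 S1 : ℝ) (hh : 0 < h)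
    (hh0 : 0 < h0)
    (g1 : h ≤ h1) (g2 : h1 ≤ (1 + ε / 8) * h) (g3 : h0 ≤ h) (g4 : h ≤ (1 + ε / 8) * h0)
    (m0 : h0 * S0 ≤ h * S) (m1 : h * S ≤ h1 * S1) (n0 : |S0 - k| ≤ ε / 2 * k) (n1 : |S1 - k| ≤ ε / 2 * k) :
    |S - k| ≤ ε * k := by
  have a0 := (abs_le.1 n0).1
  have a1 := (abs_le.1 n1).2
  have hεk : 0 ≤ ε * k := by positivity
  have hεεk : ε * (ε * k) ≤ 1 / 4 * (ε * k) := mul_le_mul_of_nonneg_right hε1 hεk
  rw [abs_le]
  constructor
  · -- lower bound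
    by_contra hcon
    rw [not_le] at hcon
    have b1 : S < (1 - ε) * k := by linarith
    have b2 : h * S < h * ((1 - ε) * k) := mul_lt_mul_of_pos_left b1 hh
    have b3 : h * ((1 - ε) * k) ≤ (1 + ε / 8) * h0 * ((1 - ε) * k) :=
      mul_le_mul_of_nonneg_right g4 (mul_nonneg (by linarith) hk)
    have b4 : (1 + ε / 8) * ((1 - ε) * k) ≤ S0 := by nlinarith
    have b5 : h0 * ((1 + ε / 8) * ((1 - ε) * k)) ≤ h0 * S0 := mul_le_mul_of_nonneg_left b4 hh0.le
    linarith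
  · by_contra hcon
    rw [not_le] at hcon
    have b1 : (1 + ε) * k < S := by linarith
    have b2 : h * ((1 + ε) * k) < h * S := mul_lt_mul_of_pos_left b1 hh
    have b4 : (1 + ε / 8) * S1 ≤ (1 + ε) * k := by nlinarith
    have hS1 : 0 ≤ S1 := by
      have := (abs_le.1 n1).1
      nlinarith
    have b3 : h1 * S1 ≤ (1 + ε / 8) * h * S1 := mul_le_mul_of_nonneg_right g2 hS1
    have b5 : h * ((1 + ε / 8) * S1) ≤ h * ((1 + ε) * k) := mul_le_mul_of_nonneg_left b4 hh.le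
    linarith

theorem det (R C U : ℕ) (ε : ℝ) (hR : 1 ≤ R) (hε : 0 < ε) (hε1 : ε ≤ 1 / 4) : ∃ D κ K : ℕ, U ≤ D ∧
    ∀ᶠ N : ℕ in atTop, ∀ (B : ℝ) (A : Finset ℕ) (lam : ℕ → ℝ), Pts B N A lam → B ≤ Real.log N ^ C →
    ∀ x : ℕ → ℝ, (∀ i, x i ∈ Set.Icc (1 / (R : ℝ)) R) →
    (∀ g < JJ ε N, Real.log N ^ (D + C + 40) / N ≤ hg ε g → ∀ (q : Fin 3) (u j : ℕ), u ≤ j → (j : ℝ) ≤ Real.log N ^ C →
      ¬ Ev ε D N A lam (hg ε g) q u j x) → GoodD ε C κ K N A lam x := by
  classical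
  obtain ⟨D0, κ, L0, habs⟩ := V.absT (C + 1) ε hε hε1
  obtain ⟨D, hD⟩ : ∃ D, D = D0 + U := ⟨_, rfl⟩
  have hR0 : (0 : ℝ) < R := by exact_mod_cast hR
  refine ⟨D, κ, D + C + 41, by omega, ?_⟩
  filter_upwards [exc R D C (4 + ε) hR (by linarith), JJ_le ε hε, ev_L (|L0| + 64), eventually_ge_atTop 16] with
    N hX hJ hL hN16 B A lam H hBC x hx hev
  have hNr : (16 : ℝ) ≤ N := by exact_mod_cast hN16
  have hN0 : (0 : ℝ) < N := by linarith
  have hX2 := hX B A lam H hBC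
  have hev2 : ∀ g < JJ ε N, Real.log N ^ (D + C + 40) / N ≤ hg ε g → ∀ (q : Fin 3) (u j : ℕ), u ≤ j →
      (j : ℝ) ≤ Real.log N ^ C →
      |∑ a ∈ A, wv ε N A lam (hg ε g) q u j x a * (YD (4 + ε) N (hg ε g) (x j * lam a) - 1)| ≤
        (ε / 40) * ∑ a ∈ A, wv ε N A lam (hg ε g) q u j x a + N / Real.log N ^ D := by
    intro g h1 h2 q u j h3 h4
    have := hev g h1 h2 q u j h3 h4
    unfold Ev at this
    exact not_lt.1 this
  unfold GoodD
  obtain ⟨L, hLd⟩ : ∃ L, L = Real.log (N : ℝ) := ⟨_, rfl⟩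
  rw [← hLd] at hJ hL hBC hX2 hev2 ⊢
  have hL0' : L0 ≤ L := by linarith [le_abs_self L0]
  have hL64 : 64 ≤ L := by linarith [abs_nonneg L0]
  have hL1 : 1 ≤ L := by linarith
  have hLp : 0 < L := by linarith
  have hB1 := H.hB
  have hx0 : ∀ i, 0 ≤ x i := fun i => le_trans (by positivity) (hx i).1
  have hlam0 : ∀ a ∈ A, 0 < lam a := fun a ha => hN0.trans_le (H.lo a ha)
  have hAc : (A.card : ℝ) ≤ N * L ^ (C + 1) := by
    refine H.card_le.trans ?_
    rw [pow_succ]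
    have : 2 * B ≤ L ^ C * L := by nlinarith [pow_pos hLp C]
    nlinarith
  have hLL : ∀ t r : ℕ, t ≤ r → N / L ^ r ≤ N / L ^ t := by
    intro t r htr
    apply div_le_div_of_nonneg_left hN0.le (by positivity)
    exact pow_le_pow_right₀ hL1 htr
  have hstep : ∀ t : ℕ, N / L ^ (t + 1) ≤ N / L ^ t / 64 := by
    intro t
    have e2 : (N : ℝ) / L ^ (t + 1) = N / L ^ t / L := by rw [pow_succ, div_div]
    rw [e2]
    exact div_le_div_of_nonneg_left (by positivity) (by norm_num) hL64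
  have hpos2 : ∀ t : ℕ, 0 < N / L ^ t := fun t => by positivity
  intro k hk
  have hkC : (k : ℝ) ≤ L ^ (C + 1) := hk.trans (pow_le_pow_right₀ hL1 (by omega))
  -- the hypothesis on the grid
  have hgrid : ∀ g < JJ ε N, L ^ (D + C + 40) / N ≤ hg ε g →
      (((V.RR ε A k (fun i a => ZD N (hg ε g) (x i * lam a))).card : ℝ) ≤
        2 * Real.exp (-(ε ^ 2 * k / 100)) * A.card + N / L ^ (C + 1 + 1)) ∧
      (κ * Real.log L ≤ k → ((V.RR ε A k (fun i a => ZD N (hg ε g) (x i * lam a))).card : ℝ) ≤ N / L ^ (C + 1 + 3)) ∧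
      ∀ A' : Finset ℕ, A' ⊆ A → (∀ a ∈ A', ∀ i < k, ZD N (hg ε g) (x i * lam a) = 0) →
        (A'.card : ℝ) ≤ (3 / 4 + ε) ^ k * A.card + N / L ^ (C + 1) := by
    intro g hgJ hgN
    apply habs N L hN0 hL0' A A (Subset.refl _) hAc k hkC (fun i a => ZD N (hg ε g) (x i * lam a))
      (fun i a => ZD_nonneg' _ _ _ (hg_pos ε hε g).le)
    constructor
    · intro q u j huj hjk
      have h1 := hev2 g hgJ hgN q u j huj (by
        have : (j : ℝ) ≤ k := by exact_mod_cast hjk.le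
        linarith)
      unfold wv YD at h1
      have h2 := hLL D0 D (by omega)
      linarith
    · intro i hi E hE hEZ
      have h1 := hX2 (x i) (hx i) (hg ε g) (by
        refine le_trans ?_ hgN
        apply div_le_div_of_nonneg_right _ hN0.le
        exact pow_le_pow_right₀ hL1 (by omega)) (hg_le ε hε g) E hE hEZ
      have h2 := hLL D0 D (by omega)
      linarith
  -- a member of the interval between two members of the grid
  have hmem : ∀ h : ℝ, L ^ (D + C + 41) / N ≤ h → h ≤ 1 → ∃ g : ℕ, g + 1 < JJ ε N ∧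
      L ^ (D + C + 40) / N ≤ hg ε (g + 1) ∧ hg ε (g + 1) ≤ hg ε g ∧ 0 < h ∧ h ≤ hg ε g ∧ hg ε g ≤ (1 + ε / 8) * h ∧
      hg ε (g + 1) ≤ h ∧ h ≤ (1 + ε / 8) * hg ε (g + 1) := by
    intro h hh1 hh2
    have hh0 : 0 < h := lt_of_lt_of_le (by positivity) hh1
    have h1 : 1 / (N : ℝ) ≤ h := by
      refine le_trans ?_ hh1
      apply div_le_div_of_nonneg_right _ hN0.le
      exact one_le_pow₀ hL1
    obtain ⟨g, g1, g2, g3, g4, g5⟩ := grid ε hε N (by omega) h hh0 hh2 h1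
    refine ⟨g, g1, ?_, g4.trans g2, hh0, g2, g3, g4, g5⟩
    have h2 : L ^ (D + C + 41) / N = L * (L ^ (D + C + 40) / N) := by
      rw [pow_succ L (D + C + 40)]
      ring
    have h3 : 0 < L ^ (D + C + 40) / N := by positivity
    have h4 : 64 * (L ^ (D + C + 40) / N) ≤ L * (L ^ (D + C + 40) / N) := mul_le_mul_of_nonneg_right hL64 h3.le
    have h5 : (1 + ε / 8) * hg ε (g + 1) ≤ 2 * hg ε (g + 1) :=
      mul_le_mul_of_nonneg_right (by linarith) (hg_pos ε hε _).le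
    linarith
  have hbt : ∀ h : ℝ, ∀ a ∈ A, ∀ g : ℕ, 0 < h → h ≤ hg ε g → hg ε g ≤ (1 + ε / 8) * h → hg ε (g + 1) ≤ h →
      h ≤ (1 + ε / 8) * hg ε (g + 1) → a ∉ V.RR ε A k (fun i a => ZD N (hg ε g) (x i * lam a)) →
      a ∉ V.RR ε A k (fun i a => ZD N (hg ε (g + 1)) (x i * lam a)) → |SS N k x h (lam a) - k| ≤ ε * k := by
    intro h a ha g h0 h1 h2 h3 h4 h5 h6
    unfold V.RR at h5 h6
    rw [mem_filter, not_and, not_lt] at h5 h6
    exact between ε hε hε1 k (Nat.cast_nonneg _) h (hg ε (g + 1)) (hg ε g) _ _ _ h0 (hg_pos ε hε _) h1 h2 h3 h4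
      (SS_mono N k x (lam a) _ _ hx0 (hlam0 a ha).le (hg_pos ε hε _) h3)
      (SS_mono N k x (lam a) _ _ hx0 (hlam0 a ha).le h0 h1) (h6 ha) (h5 ha)
  refine ⟨fun h hh1 hh2 => ⟨?_, ?_⟩, fun hκ => ?_⟩
  · obtain ⟨g, g1, g2, g3, g4, g5, g6, g7, g8⟩ := hmem h hh1 hh2
    have r0 := (hgrid g (by omega) (g2.trans g3)).1
    have r1 := (hgrid (g + 1) g1 g2).1
    have hsub : (A.filter fun a => ε * k < |SS N k x h (lam a) - k|) ⊆
        V.RR ε A k (fun i a => ZD N (hg ε g) (x i * lam a)) ∪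
        V.RR ε A k (fun i a => ZD N (hg ε (g + 1)) (x i * lam a)) := by
      intro a ha
      rw [mem_filter] at ha
      by_contra hcon
      rw [mem_union, not_or] at hcon
      have := hbt h a ha.1 g g4 g5 g6 g7 g8 hcon.1 hcon.2
      linarith [ha.2]
    have h3 : ((A.filter fun a => ε * k < |SS N k x h (lam a) - k|).card : ℝ) ≤
        ((V.RR ε A k (fun i a => ZD N (hg ε g) (x i * lam a))).card : ℝ) +
        (V.RR ε A k (fun i a => ZD N (hg ε (g + 1)) (x i * lam a))).card := by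
      exact_mod_cast (card_le_card hsub).trans (card_union_le _ _)
    have h4 := hstep C
    have h5 := hpos2 C
    have h6 := hLL (C + 1) (C + 1 + 1) (by omega)
    linarith
  · obtain ⟨g, g1, g2, g3, g4, g5, g6, g7, g8⟩ := hmem h hh1 hh2
    have r1 := (hgrid (g + 1) g1 g2).2.2 (A.filter fun a => ∀ i < k, PC h (x i * lam a) = 0) (filter_subset _ _) (by
      intro a ha i hi
      rw [mem_filter] at ha
      have h1 := ha.2 i hi
      have h2 : PC (hg ε (g + 1)) (x i * lam a) = 0 := by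
        have h3 : PC (hg ε (g + 1)) (x i * lam a) ≤ PC h (x i * lam a) := by
          unfold PC
          apply card_le_card
          apply filter_subset_filter
          apply Ioc_subset_Ioc_right
          apply Nat.floor_le_floor
          have := mul_nonneg (hx0 i) (hlam0 a ha.1).le
          nlinarith
        omega
      unfold ZD
      rw [h2]
      simp)
    have h6 := hLL C (C + 1) (by omega)
    linarith
  · have hsub : (A.filter fun a => ¬ ∀ h : ℝ, L ^ (D + C + 41) / N ≤ h → h ≤ 1 →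
        |SS N k x h (lam a) - k| ≤ ε * k) ⊆ (range (JJ ε N)).biUnion fun g =>
          if L ^ (D + C + 40) / N ≤ hg ε g then V.RR ε A k (fun i a => ZD N (hg ε g) (x i * lam a)) else ∅ := by
      intro a ha
      rw [mem_filter] at ha
      obtain ⟨haA, hay⟩ := ha
      push Not at hay
      obtain ⟨h, hh1, hh2, hh3⟩ := hay
      obtain ⟨g, g1, g2, g3, g4, g5, g6, g7, g8⟩ := hmem h hh1 hh2
      rw [mem_biUnion]
      by_contra hcon
      push Not at hcon
      have c0 := hcon g (mem_range.2 (by omega))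
      have c1 := hcon (g + 1) (mem_range.2 g1)
      rw [if_pos (g2.trans g3)] at c0
      rw [if_pos g2] at c1
      have := hbt h a haA g g4 g5 g6 g7 g8 c0 c1
      linarith
    have h1 : ((A.filter fun a => ¬ ∀ h : ℝ, L ^ (D + C + 41) / N ≤ h → h ≤ 1 →
        |SS N k x h (lam a) - k| ≤ ε * k).card : ℝ) ≤ ∑ g ∈ range (JJ ε N),
          ((if L ^ (D + C + 40) / N ≤ hg ε g then V.RR ε A k (fun i a => ZD N (hg ε g) (x i * lam a)) else ∅).card : ℝ) := by
      exact_mod_cast (card_le_card hsub).trans card_biUnion_le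
    refine h1.trans ?_
    have h2 : ∀ g ∈ range (JJ ε N), (((if L ^ (D + C + 40) / N ≤ hg ε g then
        V.RR ε A k (fun i a => ZD N (hg ε g) (x i * lam a)) else ∅).card : ℕ) : ℝ) ≤ N / L ^ (C + 1 + 3) := by
      intro g hg'
      split_ifs with h3
      · exact (hgrid g (mem_range.1 hg') h3).2.1 hκ
      · rw [card_empty, Nat.cast_zero]
        positivity
    refine (sum_le_sum h2).trans ?_
    rw [sum_const, card_range, nsmul_eq_mul]
    calc (JJ ε N : ℝ) * (N / L ^ (C + 1 + 3)) ≤ L ^ 2 * (N / L ^ (C + 1 + 3)) :=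
          mul_le_mul_of_nonneg_right hJ (by positivity)
      _ = N / L ^ (C + 2) := by
          rw [show C + 1 + 3 = C + 2 + 2 by ring, pow_add L (C + 2) 2]
          field_simp
      _ ≤ _ := hLL C (C + 2) (by omega)

end Pool.Agent.NH15.DL
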