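import Pool.Agent.NH15.DL.D7

set_option autoImplicit false

/-! Almost every sequence of independent dilations is good. -/

namespace Pool.Agent.NH15.DL

open Finset MeasureTheory Filter Topology ProbabilityTheory
open scoped ENNReal
open Pool.Agent.Y957.VK
open Pool.Agent.W301.SS
open Pool.Agent.NH15.CT

/-- the probability of the union -/
lemma prob_le (ε : ℝ) (C D N : ℕ) (hD : 2 * C + 6 ≤ D) (L : ℝ) (hL : 64 ≤ L) (J : ℕ) (hJ : (J : ℝ) ≤ L ^ 2)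
    {Ω : Type*} [MeasurableSpace Ω] (P : Measure Ω) (Q : ℕ → Prop) (E : ℕ → Fin 3 → ℕ → ℕ → Set Ω) (d : ℝ) (hd : 0 ≤ d)
    (hE : ∀ g q u j, Q g → P (E g q u j) ≤ ENNReal.ofReal d * ENNReal.ofReal (1 / L ^ D)) :
    P {ω | ∃ g < J, Q g ∧ ∃ (q : Fin 3) (u j : ℕ), u ≤ j ∧ (j : ℝ) ≤ L ^ C ∧ ω ∈ E g q u j} ≤
      ENNReal.ofReal (12 * d / L ^ 2) := by
  classical
  have hL0 : 0 < L := by linarith
  have hL1 : 1 ≤ L := by linarith
  obtain ⟨kk, hkk⟩ : ∃ kk : ℕ, kk = ⌊L ^ C⌋₊ + 1 := ⟨_, rfl⟩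
  have hkk2 : (kk : ℝ) ≤ 2 * L ^ C := by
    rw [hkk]
    push_cast
    have h1 := Nat.floor_le (show 0 ≤ L ^ C by positivity)
    have h2 : 1 ≤ L ^ C := one_le_pow₀ hL1
    linarith
  obtain ⟨T, hT⟩ : ∃ T : Finset (ℕ × Fin 3 × ℕ × ℕ), T = (range J) ×ˢ (univ : Finset (Fin 3)) ×ˢ (range kk) ×ˢ (range kk) :=
    ⟨_, rfl⟩
  have hTc : (T.card : ℝ) ≤ 12 * L ^ (2 * C + 2) := by
    rw [hT, card_product, card_product, card_product, card_range, card_univ, Fintype.card_fin, card_range]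
    push_cast
    calc (J : ℝ) * (3 * (kk * kk)) ≤ L ^ 2 * (3 * ((2 * L ^ C) * (2 * L ^ C))) := by
          apply mul_le_mul hJ _ (by positivity) (by positivity)
          apply mul_le_mul_of_nonneg_left _ (by norm_num)
          exact mul_le_mul hkk2 hkk2 (Nat.cast_nonneg _) (by positivity)
      _ = _ := by ring
  have hsub : {ω | ∃ g < J, Q g ∧ ∃ (q : Fin 3) (u j : ℕ), u ≤ j ∧ (j : ℝ) ≤ L ^ C ∧ ω ∈ E g q u j} ⊆
      ⋃ t ∈ T, (if Q t.1 then E t.1 t.2.1 t.2.2.1 t.2.2.2 else ∅) := by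
    rintro ω ⟨g, hg, hQ, q, u, j, huj, hj, hω⟩
    have hjk : j < kk := by
      rw [hkk]
      have := Nat.le_floor hj
      omega
    simp only [Set.mem_iUnion]
    refine ⟨(g, q, u, j), ?_, ?_⟩
    · rw [hT]
      simp only [mem_product, mem_range, mem_univ, true_and]
      exact ⟨hg, by omega, hjk⟩
    · simp only
      rw [if_pos hQ]
      exact hω
  refine (measure_mono hsub).trans ((measure_biUnion_finset_le _ _).trans ?_)
  have h1 : ∀ t ∈ T, P (if Q t.1 then E t.1 t.2.1 t.2.2.1 t.2.2.2 else ∅) ≤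
      ENNReal.ofReal d * ENNReal.ofReal (1 / L ^ D) := by
    intro t _
    split_ifs with h
    · exact hE _ _ _ _ h
    · simp
  refine (sum_le_sum h1).trans ?_
  rw [sum_const, nsmul_eq_mul, ← ENNReal.ofReal_mul hd, ← ENNReal.ofReal_natCast, ← ENNReal.ofReal_mul (Nat.cast_nonneg _)]
  apply ENNReal.ofReal_le_ofReal
  calc (T.card : ℝ) * (d * (1 / L ^ D)) ≤ 12 * L ^ (2 * C + 2) * (d * (1 / L ^ (2 * C + 6))) := by
        apply mul_le_mul hTc _ (by positivity) (by positivity)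
        apply mul_le_mul_of_nonneg_left _ hd
        apply one_div_le_one_div_of_le (by positivity)
        exact pow_le_pow_right₀ hL1 hD
    _ = 12 * d / L ^ 2 * (1 / L ^ 2) := by
        rw [show 2 * C + 6 = 2 * C + 2 + 4 by ring, pow_add L (2 * C + 2)]
        field_simp
    _ ≤ 12 * d / L ^ 2 * 1 := by
        apply mul_le_mul_of_nonneg_left _ (by positivity)
        rw [div_le_one (by positivity)]
        nlinarith
    _ = _ := mul_one _

theorem almost (hneg : Neg lamw) (hb : ∀ n : ℕ, ‖lamw n‖ ≤ Real.log (n + 3)) (hpl : S_PLANCH)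
    (R C : ℕ) (ε : ℝ) (hR : 1 ≤ R) (hε : 0 < ε) (hε1 : ε ≤ 1 / 4) : ∃ κ K : ℕ,
    ∀ (Ω : Type*) [MeasurableSpace Ω] (P : Measure Ω) [IsProbabilityMeasure P] (X : ℕ → Ω → ℝ),
    (∀ i, Measurable (X i)) → iIndepFun X P → ∀ d : ℝ,
    (∀ i, P.map (X i) ≤ ENNReal.ofReal d • (volume.restrict (Set.Icc (1 / (R : ℝ)) R))) →
    ∀ (A : ℕ → Finset ℕ) (lam : ℕ → ℕ → ℝ) (B : ℕ → ℝ),
    (∀ᶠ m : ℕ in atTop, Pts (B m) (2 ^ m) (A m) (lam m) ∧ B m ≤ Real.log ((2 ^ m : ℕ) : ℝ) ^ C) →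
    ∀ᵐ ω ∂P, ∀ᶠ m : ℕ in atTop, GoodD ε C κ K (2 ^ m) (A m) (lam m) (fun i => X i ω) := by
  classical
  obtain ⟨D, κ, K, hUD, hdet⟩ := det R C (2 * C + 6) ε hR hε hε1
  refine ⟨κ, K, ?_⟩
  intro Ω _ P _ X hXm hXi d hXd A lam B hA
  have hone := one hneg hb hpl R D C (4 + ε) (ε / 40) hR (by linarith) (by positivity) (by linarith)
  have ht : Tendsto (fun m : ℕ => 2 ^ m) atTop atTop := tendsto_pow_atTop_atTop_of_one_lt (by norm_num)
  obtain ⟨m0, hm0⟩ := (((ht.eventually (hdet.and (hone.and ((JJ_le ε hε).and (ev_L 64))))).and hA).and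
    (eventually_ge_atTop 1)).exists_forall_of_atTop
  -- all the dilations are in the interval
  have hX1 : ∀ᵐ ω ∂P, ∀ i, X i ω ∈ Set.Icc (1 / (R : ℝ)) R := by
    rw [ae_all_iff]
    intro i
    have h1 : (P.map (X i)) (Set.Icc (1 / (R : ℝ)) R)ᶜ = 0 := by
      apply le_antisymm _ zero_le
      refine (hXd i _).trans ?_
      rw [Measure.smul_apply, Measure.restrict_apply measurableSet_Icc.compl, Set.compl_inter_self, measure_empty,
        smul_zero]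
    rw [Measure.map_apply (hXm i) measurableSet_Icc.compl] at h1
    rw [ae_iff]
    exact h1
  -- the exceptional events
  obtain ⟨E, hE⟩ : ∃ E : ℕ → ℕ → Fin 3 → ℕ → ℕ → Set Ω, E = fun m g q u j =>
      {ω | Ev ε D (2 ^ m) (A m) (lam m) (hg ε g) q u j (fun i => X i ω)} := ⟨_, rfl⟩
  obtain ⟨s, hs⟩ : ∃ s : ℕ → Set Ω, s = fun m => if m0 ≤ m then {ω | ∃ g < JJ ε (2 ^ m),
      (Real.log ((2 ^ m : ℕ) : ℝ) ^ (D + C + 40) / ((2 ^ m : ℕ) : ℝ) ≤ hg ε g) ∧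
      ∃ (q : Fin 3) (u j : ℕ), u ≤ j ∧ (j : ℝ) ≤ Real.log ((2 ^ m : ℕ) : ℝ) ^ C ∧ ω ∈ E m g q u j} else ∅ := ⟨_, rfl⟩
  have hsP : ∀ m, P (s m) ≤ ENNReal.ofReal (48 * |d| * (1 / (m : ℝ) ^ 2)) := by
    intro m
    rw [hs]
    simp only
    split_ifs with hm
    · obtain ⟨⟨⟨-, h2, h3, h4⟩, h5, h6⟩, h7⟩ := hm0 m hm
      have h8 := prob_le ε C D (2 ^ m) hUD (Real.log ((2 ^ m : ℕ) : ℝ)) h4 (JJ ε (2 ^ m)) h3 P
        (fun g => Real.log ((2 ^ m : ℕ) : ℝ) ^ (D + C + 40) / ((2 ^ m : ℕ) : ℝ) ≤ hg ε g) (E m) |d| (abs_nonneg d) (by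
          intro g q u j hQ
          rw [hE]
          have h9 := ev_le ε hε hε1 D (2 ^ m) R (A m) (lam m) (hg ε g) (hg_pos ε hε g).le
            (fun w hw0 hw1 => h2 (B m) (A m) (lam m) h5 h6 (hg ε g) hQ (hg_le ε hε g) w hw0 hw1) P X hXm hXi d hXd q u j
          refine h9.trans ?_
          refine mul_le_mul' (ENNReal.ofReal_le_ofReal (le_abs_self d)) le_rfl)
      refine h8.trans (ENNReal.ofReal_le_ofReal ?_)
      have hm1 : (0 : ℝ) < m := by exact_mod_cast h7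
      have hlog : (m : ℝ) / 2 ≤ Real.log ((2 ^ m : ℕ) : ℝ) := by
        push_cast
        rw [Real.log_pow]
        have := Real.log_two_gt_d9
        nlinarith
      have h9 : (m : ℝ) ^ 2 / 4 ≤ Real.log ((2 ^ m : ℕ) : ℝ) ^ 2 := by
        calc (m : ℝ) ^ 2 / 4 = ((m : ℝ) / 2) ^ 2 := by ring
          _ ≤ _ := pow_le_pow_left₀ (by positivity) hlog 2
      calc 12 * |d| / Real.log ((2 ^ m : ℕ) : ℝ) ^ 2 ≤ 12 * |d| / ((m : ℝ) ^ 2 / 4) :=
            div_le_div_of_nonneg_left (by positivity) (by positivity) h9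
        _ = _ := by
            field_simp
            ring
    · simp
  have hsum : ∑' m, P (s m) ≠ ∞ := by
    have h1 : Summable fun m : ℕ => 48 * |d| * (1 / (m : ℝ) ^ 2) :=
      (Real.summable_one_div_nat_pow.2 (by norm_num)).mul_left _
    exact ne_top_of_le_ne_top h1.tsum_ofReal_ne_top (ENNReal.tsum_le_tsum hsP)
  filter_upwards [hX1, ae_eventually_notMem hsum] with ω h1 h2
  filter_upwards [h2, eventually_ge_atTop m0] with m h3 h4
  obtain ⟨⟨⟨g1, -, -, -⟩, h5, h6⟩, -⟩ := hm0 m h4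
  refine g1 (B m) (A m) (lam m) h5 h6 (fun i => X i ω) h1 ?_
  intro g hgJ hgN q u j huj hj hev
  apply h3
  rw [hs]
  simp only
  rw [if_pos h4]
  refine ⟨g, hgJ, hgN, q, u, j, huj, hj, ?_⟩
  rw [hE]
  exact hev

end Pool.Agent.NH15.DL
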